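import Mathlib
import Pool.Agent.helper24.BR.SpecA
import Pool.Agent.helper70.BR.SpecR
import Pool.Agent.helper83.FI.SpecR
import Pool.Agent.helper59.FI.SpecB2

/-!
# Project GB (MP_baa4d7_al): BROUÉ-PUIG FOR NONABELIAN DEFECT GROUPS, characters supported on a strongly closed central subgroup

For helper7's THEOREM ZB (`/team-store/BoundZ_helper7.md`). OUTPUT: `BPZ_stmt` (last section): for a defect group `D` of `B` (any `D`), a subgroup `T ≤ Z(D)`, normalised by `N_G(D)` and strongly closed (`ZS`), and a linear character `l` of `T` the number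
`nlZ = |D : T| ∑_{u ∈ T} |C_A(u)| l(u) P_u(ψ, ψ')` is integral at `p`, `A = TT / C_TT(T)`.

PLAN. Pairs `(Q, e)`: `Q` a `p`-subgroup (NOT nec. abelian), `e` a block idempotent of `cz Q` (`Pai`); `Nin` normal inclusion, `Pin` inclusion (transitive closure), `un p M P f Q` the unique `e` with `(Q, e) ≤ (P, f)` (Alperin-Broué, row UQT). A sum `∑_x e x * F x`, `e = e^q`, `q = p ^ N` large, is `p`-adically the sum over the pairs
`(R, f) ≥ (Q, e)`, `R ≤ P`, of `YY P R f q F = ∑_{t : stb P R f t = R} ∏ f (t i) * F (∏ t)` (DEC), where `stb P R f t` is the stabiliser of `(R, f, t)` in `P`. So `∑_{u ∈ P} THZ u w * ψ' ((u w)⁻¹)` is a sum over triples `(R, f, t)`, `P` acts on them with stabilisers `R`, and the inner sum over `u ∈ R` is divisible by `|R|` (LLIZ), because the weight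
`LamP` is a sum of linear characters of `R ⊓ g⁻¹ T g` times `|D : T|` (LAMZ) (`FRB_orb` of `helper68/BP/FRB`). So the mean over every `p`-subgroup is integral (LOCZ), and `FRB` gives BPZ.

RULES. File `Pool/Agent/<seat>/GB/XXX.lean` with

  import Pool.Agent.helper68.GB.Spec
  set_option autoImplicit false
  namespace Pool.Agent.GB
  open Pool.Agent.helper58.DC Pool.Agent.DI Pool.Agent.GR Pool.Agent.OB Pool.Agent.DR Pool.Agent.FI Pool.Agent.FI3 Pool.Agent.FI4 Pool.Agent.LE Pool.Agent.BR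
  theorem XXX (hYYY : YYY_stmt) ... : XXX_stmt := ...
  end Pool.Agent.GB

auxiliary lemmas prefixed `XXX_`, no sorry, no double quotes in the file, no `convert`, no `congr!`. The rows named in the docstring are hypotheses; all rows of the older specs (proved, no circles) may be added as further hypotheses: `helper83/GR/Spec` (CVF EXP CCI IDM EIN NIL BCL ORB PRD ..), DI (B2 C3 ..), `helper22/OB/SpecD` (PWN),
`helper22/FI/SpecA` (ORP CFX BQA SYL CLS DCM SBI TRN CJG TPR BLE EXB DEX DUN CNTL NCJ), `helper59/FI/SpecB` (IVS), `helper83/FI/SpecR` (BRQ BRK PLF EVF EVM), `helper58/FI/SpecC` (FEQ FSI FBC), `helper24/BR/SpecA` (SPC REP), `helper70/BR/SpecR` (EXA). Ready lemmas: `helper59/FI/Base` (`SB_conj SB_inner TRNb SBIb funMap_mul funMap_inner cut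
cc_cut cz_mono mem_cj card_cj cj_cz cj_nz mem_TT cz_le_TT ..`), `helper83/GR/Ari`, `cz_zp : cz (zpowers u) = Cz ⊤ u` (`helper70/LZ/SpecZ`), `TUF` (`helper24/BR/SpecA`), `FRB FRB_orb` (`helper68/BP/FRB`), `PWL` (`helper68/BP/PWL`, hypothesis `PRD_stmt`), `UPS` (`helper68/BP/UPS`). `cjS g P = g P g⁻¹`, `cjF g ψ x = ψ (g⁻¹ x g)` (`helper58/FI/DefsC`),
`rsk K z` restriction (`helper83/FI/SpecR`), `BB M K` block idempotents of `K`, `rep M K e` a character of the block of `e`, `lx T l` = `l` extended by `0` (`helper24/BR/SpecA`). `≡` below: the difference has `InM` values.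
-/

set_option autoImplicit false

namespace Pool.Agent.GB

open Pool.Agent.helper58.DC Pool.Agent.DI Pool.Agent.GR Pool.Agent.OB Pool.Agent.DR Pool.Agent.FI Pool.Agent.FI3 Pool.Agent.FI4 Pool.Agent.LE Pool.Agent.BR

section

variable {G : Type} [Group G]

/-- A pair: `Q` is a `p`-group, `e` a block idempotent of `cz Q`. -/
structure Pai (p : ℕ) (M : Ideal (integralClosure ℤ ℂ)) (Q : Subgroup G) (e : G → ℂ) : Prop where
  pg : IsPGroup p Q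
  bb : e ∈ BB M (cz Q)

/-- Normal inclusion `(Q, e) ⊴ (R, f)`: `Q ≤ R ≤ nz Q`, `e` is `R`-invariant and `e f ≡ f` for the restriction of `e` to `cz R`. -/
structure Nin (p : ℕ) (M : Ideal (integralClosure ℤ ℂ)) (Q : Subgroup G) (e : G → ℂ) (R : Subgroup G) (f : G → ℂ) : Prop where
  q : Pai p M Q e
  r : Pai p M R f
  le : Q ≤ R
  nor : R ≤ nz Q
  inv : Inv R e
  ef : ∀ x, InM M (cv (rsk (cz R) e) f x - f x)

/-- Inclusion of pairs. -/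
def Pin (p : ℕ) (M : Ideal (integralClosure ℤ ℂ)) (Q : Subgroup G) (e : G → ℂ) (R : Subgroup G) (f : G → ℂ) : Prop :=
  Relation.ReflTransGen (fun a b : Subgroup G × (G → ℂ) => Nin p M a.1 a.2 b.1 b.2) (Q, e) (R, f)

open Classical in
/-- The block idempotent `e` of `cz Q` with `(Q, e) ≤ (P, f)`. -/
noncomputable def un (p : ℕ) (M : Ideal (integralClosure ℤ ℂ)) (P : Subgroup G) (f : G → ℂ) (Q : Subgroup G) : G → ℂ :=
  if h : ∃ e, Pin p M Q e P f then h.choose else 0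

/-- The stabiliser of a function under conjugation. `Inv R e` iff `R ≤ sfn e`. -/
def sfn (e : G → ℂ) : Subgroup G where
  carrier := {g | ∀ x, e (g * x * g⁻¹) = e x}
  one_mem' := by
    intro x
    simp
  mul_mem' := by
    intro a b ha hb x
    have h : a * b * x * (a * b)⁻¹ = a * (b * x * b⁻¹) * a⁻¹ := by group
    rw [h, ha, hb]
  inv_mem' := by
    intro a ha x
    have h := ha (a⁻¹ * x * a⁻¹⁻¹)
    rw [← h]
    congr 1
    group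

/-- The stabiliser of `(Q, e, t)` in `P`. -/
def stb (P Q : Subgroup G) (e : G → ℂ) {q : ℕ} (t : Fin q → G) : Subgroup G :=
  P ⊓ nz Q ⊓ sfn e ⊓ Subgroup.centralizer (Set.range t)

/-- The sum over the tuples with stabiliser `Q`. -/
noncomputable def YY (P Q : Subgroup G) (e : G → ℂ) (q : ℕ) (F : G → ℂ) : ℂ :=
  ∑ᶠ t ∈ {t : Fin q → G | stb P Q e t = Q}, (∏ i, e (t i)) * F (List.ofFn t).prod

/-- The pairs `(R, f)` with `(Q, e) ≤ (R, f)`, `R ≤ P`. -/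
def Up (p : ℕ) (M : Ideal (integralClosure ℤ ℂ)) (P Q : Subgroup G) (e : G → ℂ) : Set (Subgroup G × (G → ℂ)) :=
  {z | z.1 ≤ P ∧ Pai p M z.1 z.2 ∧ Pin p M Q e z.1 z.2}

/-- `D` is a defect group of the block of `χ` and `θ ∈ IrrOn (cz D)`, `b(θ)^G = B`. -/
structure RtZ (p : ℕ) (M : Ideal (integralClosure ℤ ℂ)) (D : Subgroup G) (x : G) (θ χ : G → ℂ) : Prop where
  chi : χ ∈ Irr G
  dfa : DefAt p M χ D x
  th : θ ∈ IrrOn (cz D)
  ind : Induces M θ χ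

/-- `T` is a central subgroup of `D`, normalised by `nz D`, and strongly closed. -/
structure ZS (p : ℕ) (M : Ideal (integralClosure ℤ ℂ)) (D T : Subgroup G) (x : G) (θ χ : G → ℂ) : Prop where
  rt : RtZ p M D x θ χ
  tle : T ≤ D
  tcz : T ≤ cz D
  tnz : ∀ n ∈ nz D, ∀ t ∈ T, n * t * n⁻¹ ∈ T
  cl : ∀ u ∈ D, ∀ β : G → ℂ, Pin p M (Subgroup.zpowers u) β D (eS (cz D) (Bl M (cz D) θ)) → ∀ s : G, s * u * s⁻¹ ∈ T →
    SB M (Cz (⊤ : Subgroup G) u) (rep M (Cz (⊤ : Subgroup G) u) β) (cjF s⁻¹ θ) → u ∈ T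

/-- `|C_A(u)| = |C_TT(u)| / |C_TT(T)|`, `TT = TT M D θ`, `A = TT / C_TT(T)`. -/
noncomputable def ciT (M : Ideal (integralClosure ℤ ℂ)) (D T : Subgroup G) (θ : G → ℂ) (u : G) : ℂ :=
  (Nat.card (Cz (TT M D θ) u) : ℂ) / Nat.card (TT M D θ ⊓ cz T : Subgroup G)

/-- The weight of `u` and the block of `η` (a character of `Cz ⊤ u`). -/
noncomputable def LamZ (M : Ideal (integralClosure ℤ ℂ)) (D T : Subgroup G) (θ : G → ℂ) (l : T →* ℂˣ) (u : G) (η : G → ℂ) : ℂ :=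
  ∑ᶠ t ∈ {t : G | SB M (Cz (⊤ : Subgroup G) u) η (cjF t⁻¹ θ)},
    (T.relIndex D : ℂ) * ciT M D T θ (t * u * t⁻¹) / Nat.card (Cz (⊤ : Subgroup G) u) * lx T l (t * u * t⁻¹)

/-- The weight of `u ∈ Q` for a pair `(Q, f)`. -/
noncomputable def LamP (p : ℕ) (M : Ideal (integralClosure ℤ ℂ)) (D T : Subgroup G) (θ : G → ℂ) (l : T →* ℂˣ) (Q : Subgroup G)
    (f : G → ℂ) (u : G) : ℂ :=
  LamZ M D T θ l u (rep M (Cz (⊤ : Subgroup G) u) (un p M Q f (Subgroup.zpowers u)))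

/-- The value of `(Ind_T^D l)^I * ψ` at `u w`. -/
noncomputable def THZ (M : Ideal (integralClosure ℤ ℂ)) (D T : Subgroup G) (θ : G → ℂ) (l : T →* ℂˣ) (ψ : G → ℂ) (u w : G) : ℂ :=
  ∑ᶠ t : G, (T.relIndex D : ℂ) * ciT M D T θ (t * u * t⁻¹) / Nat.card (Cz (⊤ : Subgroup G) u) * lx T l (t * u * t⁻¹) *
    ev ψ (eS (Cz (⊤ : Subgroup G) (t * u * t⁻¹)) (Bl M (Cz (⊤ : Subgroup G) (t * u * t⁻¹)) θ)) (t * (u * w) * t⁻¹)

/-- The multiplicity `|D : T| ∑_{u ∈ T} |C_A(u)| l(u) P_u(ψ, ψ')`. -/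
noncomputable def nlZ (p : ℕ) (M : Ideal (integralClosure ℤ ℂ)) (D T : Subgroup G) (θ : G → ℂ) (l : T →* ℂˣ) (ψ ψ' : G → ℂ) : ℂ :=
  (T.relIndex D : ℂ) * ∑ᶠ u : T, ciT M D T θ u * (l u : ℂ) * PP p M θ ψ ψ' u

end

/-! ## A. Block idempotents and pairs -/

/-- **DIC** (medium; from IDM, EIN, BLE, NIL, CVF, CCI, EXP of GR, REP of `helper24/BR/SpecA`, C3 of DI). (0) IDM for `S = Bl M K (rep e)`: `cc (rep e) e' = 1` if `rep e ∈ Bl M K (rep e')`, i.e. `e = e'` (REP (3)), else `0`. (1) if all values of `e` are `InM` then so is `cc (rep e) e = 1` (CCI (3)). (2) `cv e e'` is a class function with all `cc η = 0` (CCI (2), IDM: the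
sets `Bl` are disjoint): EXP. (3) `∑_e e - dl` has all `cc η = 0`: EXP. (4) Let `ε = cv z e`, `c = cc (rep e) z`. `c ^ 2 - c` is `InM` (CCI (2), (3)), so `c` or `c - 1` is `InM` (`InM.or`). For `η ∈ IrrOn K`: `cc η ε = cc η z * cc η e`, which is `0` for `η ∉ Bl M K (rep e)`, and `≡ c` for `η ∈ Bl` (SBI / `SBIb`). If `c` is `InM`:
all `cc η ε` are `InM` and `cv (cv ε ε) ε ≡ ε` (`cv e e = e`, `z` and `e` commute): NIL. If `c - 1` is `InM` the same for `e - ε`. -/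
def DIC_stmt : Prop :=
  ∀ (p : ℕ) (M : Ideal (integralClosure ℤ ℂ)), Setup p M → ∀ (G : Type) [Group G] [Finite G] (K : Subgroup G),
    (∀ e ∈ BB M K, ∀ e' ∈ BB M K, (e = e' → cc (rep M K e) e' = 1) ∧ (e ≠ e' → cc (rep M K e) e' = 0)) ∧
    (∀ e ∈ BB M K, ¬ ∀ x, InM M (e x)) ∧
    (∀ e ∈ BB M K, ∀ e' ∈ BB M K, e ≠ e' → cv e e' = 0) ∧
    (∀ x, ∑ᶠ e ∈ BB M K, e x = dl x) ∧
    ∀ e ∈ BB M K, ∀ z : G → ℂ, CF K z → (∀ x, IntAt M (z x)) → (∀ x, InM M (cv z z x - z x)) →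
      ((∀ x, InM M (cv z e x)) ∧ InM M (cc (rep M K e) z)) ∨
      ((∀ x, InM M (cv z e x - e x)) ∧ InM M (cc (rep M K e) z - 1))

/-- **CJB** (short to medium; from FEQ of `helper58/FI/SpecC`, REP). Transport by conjugation. Proof: `eS (cjS g K) (cjF g '' S) = cjF g (eS K S)` (definition; substitution), `Bl M (cjS g K) (cjF g η) = cjF g '' Bl M K η` (FEQ / CJG of SpecA): (1); (2) by REP (2), (3): both sides have the idempotent `cjF g e`. (3) `e` is a class function of `K`. (4) `g ∈ Q` commutes with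
the `x ∈ cz Q`, and both sides are `0` for `x ∉ cz Q`. (5), (6): `cv (cjF g a) (cjF g b) = cjF g (cv a b)`, `rsk (cz (cjS g R)) (cjF g e) = cjF g (rsk (cz R) e)`, FEQ for `cz`, `nz`, `≤`. (7) induction over the chain (`Relation.ReflTransGen.lift`); for `←` use `g⁻¹`. -/
def CJB_stmt : Prop :=
  ∀ (p : ℕ) (M : Ideal (integralClosure ℤ ℂ)), Setup p M → ∀ (G : Type) [Group G] [Finite G] (g : G) (K : Subgroup G) (e : G → ℂ),
    (e ∈ BB M K ↔ cjF g e ∈ BB M (cjS g K)) ∧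
    (e ∈ BB M K → SB M (cjS g K) (rep M (cjS g K) (cjF g e)) (cjF g (rep M K e))) ∧
    (g ∈ K → e ∈ BB M K → cjF g e = e) ∧
    (∀ Q : Subgroup G, e ∈ BB M (cz Q) → Inv Q e) ∧
    ∀ (Q R : Subgroup G) (f : G → ℂ), (Pai p M Q e ↔ Pai p M (cjS g Q) (cjF g e)) ∧
      (Nin p M Q e R f ↔ Nin p M (cjS g Q) (cjF g e) (cjS g R) (cjF g f)) ∧
      (Pin p M Q e R f ↔ Pin p M (cjS g Q) (cjF g e) (cjS g R) (cjF g f))

/-- **NIX** (medium; from DIC, CJB, BRQ of `helper83/FI/SpecR`, ORP of `helper22/FI/SpecA`, CVF). Existence and uniqueness for a normal inclusion. Proof: for `R`-invariant `e ∈ BB M (cz Q)` let `e' = rsk (cz R) e`: a class function of `cz R`, `cv e' e' ≡ e'` (BRQ with `H = cz Q`, `P = R`, `cz Q ⊓ cz R = cz R`; `cv e e = e`), so by DIC (4) for `K = cz R`: `cv e' f ≡ 0` or `≡ f`. For two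
different invariant `e₁`, `e₂`: `cv e₁' e₂' ≡ rsk (cz R) (cv e₁ e₂) = 0`; so `cv e₁' f ≡ f ≡ cv e₂' f` is impossible (`f ≡ cv e₁' (cv e₂' f) ≡ 0`, DIC (1)): uniqueness. Existence: `R` acts on the finite set `BB M (cz Q)` by `cjF` (CJB (1); `cjS r (cz Q) = cz Q` as `R ≤ nz Q`); for `x ∈ cz R` the function `e ↦ e x` is constant on orbits; ORP: `∑_{e ∈ BB} e x = dl x`
(DIC (3)) is modulo `InM` the sum over the invariant `e`. So `dl ≡ ∑_{e inv} e'` on `cz R` and (both sides `0` outside) everywhere, `f = cv dl f ≡ ∑ cv e' f`, not all `≡ 0` (DIC (1)). -/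
def NIX_stmt : Prop :=
  ∀ (p : ℕ) (M : Ideal (integralClosure ℤ ℂ)), Setup p M → ∀ (G : Type) [Group G] [Finite G] (Q R : Subgroup G) (f : G → ℂ),
    Pai p M R f → Q ≤ R → R ≤ nz Q → ∃ e, Nin p M Q e R f ∧ ∀ e', Nin p M Q e' R f → e' = e

/-- **NIS** (short to medium; from DIC, BRQ, CVF). Decomposition of the restriction. Proof: `e' = rsk (cz S) e` is idempotent modulo `M` (as in NIX) and a class function of `cz S`; `e' = cv e' dl = ∑_{f ∈ BB M (cz S)} cv e' f` (DIC (3)), and every `cv e' f` is `≡ f` if `Nin p M Q e S f` and `≡ 0` otherwise (DIC (4)). -/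
def NIS_stmt : Prop :=
  ∀ (p : ℕ) (M : Ideal (integralClosure ℤ ℂ)), Setup p M → ∀ (G : Type) [Group G] [Finite G] (Q S : Subgroup G) (e : G → ℂ),
    Pai p M Q e → IsPGroup p S → Q ≤ S → S ≤ nz Q → Inv S e →
    ∀ x, InM M (rsk (cz S) e x - ∑ᶠ f ∈ {f | Nin p M Q e S f}, f x)

/-- **NSB** (medium; from DIC, BRQ, BRK, PWN of OB, CCI, CVF, SBI, EXB, REP). Inclusion of pairs and central characters. Proof (1): let `CF L z`, integral values, `z' = rsk (cz Q) z` (invariant under `R ≤ L`, `CF (cz Q)`), `λ = cc (rep e) z = cc (rep e) z'`, `w = cv z' e - λ • e`: `CF (cz Q)`, `R`-invariant, `IntAt` values. For `η ∈ IrrOn (cz Q)`: `cc η w = cc η e * (cc η z' - λ)` is `0`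
or `InM` (SBI for `η` in the block). PWN: some `cvp w n`, `n ≥ 1`, has `InM` values; BRK / BRQ: `rsk (cz R) (cvp w n) ≡ cvp (rsk (cz R) w) n`, so `cc (rep f) (rsk (cz R) w) ^ n` is `InM`, and so is `cc (rep f) (rsk (cz R) w)` (`InM.of_pow`). BRQ: `rsk (cz R) w ≡ cv (rsk (cz R) z') (rsk (cz R) e) - λ • rsk (cz R) e`, `cc (rep f) (rsk (cz R) e) ≡ 1` (DIC (4): the first
alternative is impossible by DIC (1)), so `cc (rep f) z - λ` is `InM` (`rsk (cz R) z' = rsk (cz R) z`, `rep f` vanishes outside `cz R`), and both numbers are integral (C3; `InM.mcong`). (2) `e` is invariant under `R ≤ cz Q`; `cc (rep f) (rsk (cz R) e) = cc (rep f) e ≡ cc (rep e) e = 1` (SBI, DIC (0)), so DIC (4) gives `cv (rsk (cz R) e) f ≡ f`. (3) induction over the chain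
(`Relation.ReflTransGen.head_induction_on` or `tail` induction): all groups `R'` of the chain satisfy `Q ≤ R' ≤ R ≤ L`, `cz R' ≤ cz Q ≤ L`; (1) and `SB.trans`. -/
def NSB_stmt : Prop :=
  ∀ (p : ℕ) (M : Ideal (integralClosure ℤ ℂ)), Setup p M → ∀ (G : Type) [Group G] [Finite G] (Q R : Subgroup G) (e f : G → ℂ),
    (Nin p M Q e R f → ∀ L : Subgroup G, R ≤ L → cz Q ≤ L → SB M L (rep M (cz R) f) (rep M (cz Q) e)) ∧
    (Pai p M Q e → Pai p M R f → Q ≤ R → R ≤ cz Q → SB M (cz Q) (rep M (cz R) f) (rep M (cz Q) e) → Nin p M Q e R f) ∧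
    (Pin p M Q e R f → Q ≤ R ∧ ∀ L : Subgroup G, R ≤ L → cz Q ≤ L → SB M L (rep M (cz R) f) (rep M (cz Q) e))

/-- **NIT** (short to medium; from NIX, CJB, BRQ, CVF, DIC). Proof: NIX: `e₁` with `Nin Q e₁ R f`. For `r ∈ R'` (`R' ≤ nz Q`, `R' ≤ nz R`, `f` is `R'`-invariant) CJB gives `Nin Q (cjF r e₁) R f`, so `cjF r e₁ = e₁`: `e₁` is `R'`-invariant. `cv (rsk (cz R) e₁) f ≡ f`; restrict to `cz R'` (BRQ with `H = cz R`, `P = R'`): `cv (rsk (cz R') e₁) (rsk (cz R') f) ≡ rsk (cz R') f`;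
multiply by `f'`, `cv (rsk (cz R') f) f' ≡ f'`: `cv (rsk (cz R') e₁) f' ≡ f'`. So `Nin Q e₁ R' f'` and `e₁ = e` by uniqueness (NIX for `R'`). -/
def NIT_stmt : Prop :=
  ∀ (p : ℕ) (M : Ideal (integralClosure ℤ ℂ)), Setup p M → ∀ (G : Type) [Group G] [Finite G] (Q R R' : Subgroup G) (e f f' : G → ℂ),
    Q ≤ R → Nin p M R f R' f' → Nin p M Q e R' f' → Nin p M Q e R f

/-- **UQT** (medium; from NIX, NIT; Alperin-Broué). Uniqueness. Proof: define `F Q` for `Q ≤ P` by strong induction on `|P| - |Q|`: `F P = f`, and for `Q < P` let `N = P ⊓ nz Q > Q` (normaliser condition in the `p`-group `P`) and `F Q` the `e` with `Nin Q e N (F N)` (NIX). (Instead of a recursive definition: prove by downward induction on `Q` that there is `e` with `Pin Q e P f`, and claims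
(a), (b) for `un`.) (a) CLAIM: `Nin Q (F Q) R (F R)` for `Q ≤ R ≤ P`, `R ≤ nz Q`: by induction on `|P| - |Q|` and then on `|N| - |R|`, `N = P ⊓ nz Q`: clear for `R = N` (and for `R = Q`); for `Q < R < N` let `R' = N ⊓ nz R > R`: `Nin R (F R) R' (F R')` (induction for `R > Q`) and `Nin Q (F Q) R' (F R')` (induction for `R'`), so NIT. (b) `Pin Q e P f` implies `Q ≤ P`, `e = F Q`:
induction over the chain from the top: `Nin Q e R g`, `R ≤ P`, `g = F R`; by (a) `Nin Q (F Q) R (F R)`, uniqueness (NIX). (c) `Pin Q (F Q) R (F R)` for `Q ≤ R ≤ P`: by (a) along `Q < R ⊓ nz Q < ..`. So `un p M P f = F` on the subgroups of `P`, and for `Q ≤ R ≤ P` by uniqueness `un R (un P f R) Q = un P f Q`. -/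
def UQT_stmt : Prop :=
  ∀ (p : ℕ) (M : Ideal (integralClosure ℤ ℂ)), Setup p M → ∀ (G : Type) [Group G] [Finite G] (P : Subgroup G) (f : G → ℂ),
    Pai p M P f → un p M P f P = f ∧
    (∀ Q ≤ P, Pai p M Q (un p M P f Q) ∧ Pin p M Q (un p M P f Q) P f) ∧
    (∀ Q R : Subgroup G, Q ≤ R → R ≤ P → R ≤ nz Q → Nin p M Q (un p M P f Q) R (un p M P f R)) ∧
    (∀ (Q : Subgroup G) (e : G → ℂ), Pin p M Q e P f → Q ≤ P ∧ e = un p M P f Q) ∧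
    ∀ Q R : Subgroup G, Q ≤ R → R ≤ P → Pin p M Q (un p M P f Q) R (un p M P f R) ∧
      un p M R (un p M P f R) Q = un p M P f Q

/-! ## B. Decomposition of a sum over a block idempotent -/

/-- **PWS** (short; from NIS, DIC, REP, CVF and `PWL`). Proof: `a = rsk (cz S) e`, `b = ∑_{f : Nin Q e S f} f`: idempotent (orthogonal idempotents, DIC (2)), a class function of `cz S` with `IntAt` values, so `cv a b = cv b a` (CVF; `a` vanishes outside `cz S`); `a ≡ b` (NIS). `PWL` (`helper68/BP/PWL`). -/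
def PWS_stmt : Prop :=
  ∀ (p : ℕ) (M : Ideal (integralClosure ℤ ℂ)), Setup p M → ∀ (G : Type) [Group G] [Finite G] (Q S : Subgroup G) (e : G → ℂ),
    Pai p M Q e → IsPGroup p S → Q ≤ S → S ≤ nz Q → Inv S e → ∀ r : ℕ, ∃ N₀ : ℕ, ∀ N ≥ N₀, ∀ x,
    Small p M r (cvp (rsk (cz S) e) (p ^ N) x - ∑ᶠ f ∈ {f | Nin p M Q e S f}, f x)

/-- **DEU** (short to medium; pure; from TUP of `helper68/BP/PWL`, CJB (4)). Upper sums. Proof (1): `S ≤ P ⊓ nz Q ⊓ sfn e`, so `S ≤ stb P Q e t` iff `S ≤ centralizer (range t)` iff all `t i ∈ cz S`; for these `e (t i) = rsk (cz S) e (t i)`, for the others `∏ rsk (cz S) e (t i) = 0`. So the left side is `∑_t ∏ rsk (cz S) e (t i) * F (∏ t)`, and the right side is this by TUP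
(exchange the sums). (2) if the product is not `0` then all `t i ∈ cz Q` (`e` vanishes outside `cz Q`), `Q ≤ P`, `Q ≤ nz Q`, `Q ≤ sfn e` (CJB (4)). (3) for `x` in the group on the right `Inv` and normalisation: `S ≤ sfn e` iff `Inv S e`. -/
def DEU_stmt : Prop :=
  ∀ (p : ℕ) (M : Ideal (integralClosure ℤ ℂ)), Setup p M → ∀ (G : Type) [Group G] [Finite G] (P Q : Subgroup G) (e : G → ℂ),
    Pai p M Q e → Q ≤ P → ∀ (q : ℕ) (F : G → ℂ),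
    (∀ S : Subgroup G, S ≤ P ⊓ nz Q ⊓ sfn e →
      ∑ᶠ t ∈ {t : Fin q → G | S ≤ stb P Q e t}, (∏ i, e (t i)) * F (List.ofFn t).prod =
        ∑ᶠ x, cvp (rsk (cz S) e) q x * F x) ∧
    (∀ t : Fin q → G, (∏ i, e (t i)) ≠ 0 → Q ≤ stb P Q e t) ∧
    (∀ S : Subgroup G, S ≤ sfn e ↔ Inv S e)

/-- **DEC** (long; from DEU, PWS, UQT, NIX, REP and `UPS`). THE DECOMPOSITION. Proof: `N₀` such that PWS holds for all `(Q, e, S)` (finitely many) with this `r`. Fix `N ≥ N₀`, `q = p ^ N`, `F`. Downward induction on `|Q|` (strong induction on `|P| - |Q|`, all `e`). Let `A = P ⊓ nz Q ⊓ sfn e ≥ Q`; for a subgroup `S` let `y S = ∑_{t : stb P Q e t = S} ∏ e (t i) * F (∏ t)`, and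
`z S = ∑_{(R, f) ∈ Up P Q e, R ⊓ nz Q = S} YY P R f q F`. (1) `∑_x e x * F x = ∑_x cvp e q x * F x = ∑_{t : Q ≤ stb} .. = ∑_{S ≥ Q} y S` (`cv e e = e`, `rsk (cz Q) e = e`, DEU), `y Q = YY P Q e q F`, `Up P Q e` contains `(Q, e)`, and no other pair `(Q, f)` (UQT (4) for `(Q, f)`). (2) CLAIM: for `S > Q` `∑_{S' ≥ S} (y S' - z S')` is `Small r`. If not `S ≤ A`: all terms are `0` (`stb ≤ A`; for
`(R, f) ∈ Up P Q e` the group `S' = R ⊓ nz Q` satisfies `Nin Q e S' (un R f S')` by UQT, so `Inv S' e`, `S' ≤ A`). If `S ≤ A`: `∑_{S' ≥ S} y S' = ∑_x cvp (rsk (cz S) e) q x * F x` (DEU) is modulo `Small r` `∑_{f : Nin Q e S f} ∑_x f x * F x` (PWS), modulo `Small r` `∑_{f : Nin Q e S f} ∑_{z ∈ Up P S f} YY P z.1 z.2 q F` (induction). And `∑_{S' ≥ S} z S' = ∑_{z ∈ Up P Q e, S ≤ z.1} YY ..`. The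
two are equal: `(f, z) ↦ z` is a bijection from the `(f, z)` with `Nin Q e S f`, `z ∈ Up P S f` onto the `z ∈ Up P Q e` with `S ≤ z.1`; inverse `f = un z.1 z.2 S` (UQT: `Nin Q (un z.1 z.2 Q) S (un z.1 z.2 S)`, `un z.1 z.2 Q = e`; uniqueness of `f` UQT (4)). (3) `UPS` (on the order `Subgroup G`, `s₀ = S`): `y S - z S` is `Small r` for all `S > Q`. (4) For `z ∈ Up P Q e` with `z.1 ≠ Q`: `z.1 ⊓ nz Q > Q` (normaliser condition);
so `∑_{S > Q} z S` is the sum over the `z ∈ Up P Q e` other than `(Q, e)`. Sum up. -/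
def DEC_stmt : Prop :=
  ∀ (p : ℕ) (M : Ideal (integralClosure ℤ ℂ)), Setup p M → ∀ (G : Type) [Group G] [Finite G] (P : Subgroup G), IsPGroup p P →
    ∀ r : ℕ, ∃ N₀ : ℕ, ∀ N ≥ N₀, ∀ F : G → ℂ, (∀ x, IntAt M (F x)) → ∀ (Q : Subgroup G) (e : G → ℂ), Pai p M Q e → Q ≤ P →
    Small p M r (∑ᶠ x, e x * F x - ∑ᶠ z ∈ Up p M P Q e, YY P z.1 z.2 (p ^ N) F)

/-! ## C. Defect groups -/

/-- **EXZ** (medium; from SYL, NCJ of `helper22/FI/SpecA`). Extension of functions. Proof: call `y` good if `y ∈ L ⊓ cz P` and `Nat.card P = pp p (Cz L y)`. `z x = a y` if some good `y` is `L`-conjugate to `x`, `0` otherwise. Well defined: if `y`, `y'` are good and `L`-conjugate then by NCJ (`P ≤ Cz L y`) `y' = n y n⁻¹` with `n ∈ L ⊓ nz P`, so `a y' = a y`. `CF L z` clear, last item: `pp p (Cz L x)`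
is invariant under conjugation (SYL). For `x ∈ L ⊓ cz P`: if `x` is good then `z x = a x`. If not, then `pp p (Cz L x) > |P|`, `z x = 0`, and there is a `p`-subgroup `S` with `P < S ≤ Cz L x` (SYL); `R = S ⊓ nz P > P` (normaliser condition in `S`), `R ≤ L`, `x ∈ cz R`, so `a x` is `InM`. -/
def EXZ_stmt : Prop :=
  ∀ (p : ℕ) (M : Ideal (integralClosure ℤ ℂ)), Setup p M → ∀ (G : Type) [Group G] [Finite G] (L P : Subgroup G), IsPGroup p P →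
    P ≤ L → ∀ a : G → ℂ, (∀ x, IntAt M (a x)) → (∀ x, x ∉ L ⊓ cz P → a x = 0) →
    (∀ n ∈ L, n ∈ nz P → ∀ x, a (n * x * n⁻¹) = a x) →
    (∀ R : Subgroup G, IsPGroup p R → P < R → R ≤ L → R ≤ nz P → ∀ x ∈ cz R, InM M (a x)) →
    ∃ z : G → ℂ, CF L z ∧ (∀ x, IntAt M (z x)) ∧ (∀ x ∈ L ⊓ cz P, InM M (z x - a x)) ∧
      ∀ x, z x ≠ 0 → Nat.card P = pp p (Cz L x)

/-- **UNZ** (medium; from EXZ, BQA, CLS, SBI of `helper22/FI/SpecA`, IVS of `helper59/FI/SpecB`, IDM, EIN, CVF, CCI of GR). Roots of a block are conjugate. Proof: `C = cz D`, `L ⊓ cz D = C`. Let `S = {η ∈ IrrOn C | ∃ n ∈ L, n ∈ nz D ∧ SB M C (cjF n η) θ}`: a union of blocks (`BC`; `SB_conj`, `cjS n C = C`), stable under `cjF n`, `n ∈ L ⊓ nz D`; `E = eS C S`: idempotent, `IntAt` values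
(EIN), invariant under `L ⊓ nz D` (IVS). `k = rsk C (cls L x)`, `a = cv E k`: `CF C a` (CVF), `IntAt`, invariant under `L ⊓ nz D` (CVF). Let `D < R ≤ L ⊓ nz D`, `R` a `p`-group, `y ∈ cz R`: BQA for `R` (`E`, `k` are `R`-invariant): `a y ≡ cv (rsH (cz R) E) (rsH (cz R) k) y`, and `rsH (cz R) k = 0`: if `l x l⁻¹ ∈ cz R`, `l ∈ L`, then `R ≤ Cz L (l x l⁻¹)`, `|R| ≤ pp p (Cz L x) = |D|` (SYL), a contradiction. So `a y` is `InM`.
EXZ (`P = D`) gives `z`. Suppose that `θ' ∉ S`. `cc θ z ≡ cc θ a = cc θ E * cc θ k` (`θ` vanishes outside `C`; CCI), `cc θ E = 1` (IDM, `θ ∈ S`), `cc θ k = cc θ (cls L x) ≡ cc ψ (cls L x)`, not `InM` (`DefL.ne`); `cc θ' z ≡ cc θ' E * cc θ' k = 0`. But `cc θ z ≡ cc ψ z ≡ cc θ' z` (`SBIb`), a contradiction. -/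
def UNZ_stmt : Prop :=
  ∀ (p : ℕ) (M : Ideal (integralClosure ℤ ℂ)), Setup p M → ∀ (G : Type) [Group G] [Finite G] (L D : Subgroup G) (x : G),
    ∀ ψ ∈ IrrOn L, DefL p M L ψ D x → cz D ≤ L → ∀ θ ∈ IrrOn (cz D), SB M L θ ψ → ∀ θ' ∈ IrrOn (cz D), SB M L θ' ψ →
    ∃ n ∈ L, n ∈ nz D ∧ SB M (cz D) (cjF n θ') θ

/-- **DFZ** (medium; adapt DFL of `helper22/FI/SpecA`, file `Pool/Agent/helper22/FI/DFL.lean`; from SBI, DCM, CLS, SYL, TPR). `D` is a defect group of `b(θ)^L` for `L ≥ D`, `cz D`. Proof: (min) let `y ∈ L`, `¬ InM M (cc ψ (cls L y))`: `cc θ (cls L y)` is not `InM` (SBI), so some `L`-conjugate `y'` of `y` lies in `cz D`; then `D ≤ Cz L y'` and `|D| ≤ pp p (Cz L y') = pp p (Cz L y)` (SYL). (existence)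
Let `f = rsH L (cls ⊤ x)`, an `L`-class function with values `0`, `1`. `cc θ f = omega θ x` (CLS) is congruent to `omega χ x`, not `InM`; so `cc ψ f` is not `InM`, and by DCM there is `y ∈ L`, conjugate to `x` in `G`, with `¬ InM M (cc ψ (cls L y))`. As before replace `y` by an `L`-conjugate `x' ∈ cz D`. `D ≤ Cz L x' ≤ C_G(x')`, `|C_G(x')|_p = |C_G(x)|_p = |D|`; so `|D| = pp p (Cz L x')`. -/
def DFZ_stmt : Prop :=
  ∀ (p : ℕ) (M : Ideal (integralClosure ℤ ℂ)), Setup p M → ∀ (G : Type) [Group G] [Finite G] (D : Subgroup G) (x : G) (θ χ : G → ℂ),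
    RtZ p M D x θ χ → ∀ L : Subgroup G, D ≤ L → cz D ≤ L → ∀ ψ ∈ IrrOn L, SB M L θ ψ →
    ∃ x' ∈ cz D, (∃ g : G, g * x * g⁻¹ = x') ∧ DefL p M L ψ D x'

/-- **CJR** (short; from CJG / FEQ). Transport: `omega χ` is a class function, `centralizer {g x g⁻¹} = cjS g (centralizer {x})`, `IrrOn_funMap`, `Induces_funMap`. -/
def CJR_stmt : Prop :=
  ∀ (p : ℕ) (M : Ideal (integralClosure ℤ ℂ)), Setup p M → ∀ (G : Type) [Group G] [Finite G] (D : Subgroup G) (x : G) (θ χ : G → ℂ),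
    RtZ p M D x θ χ → ∀ g : G, RtZ p M (cjS g D) (g * x * g⁻¹) (cjF g θ) χ

/-- **MXZ** (medium; from EXZ, NIS, CJB, DIC, ORP, DCM, SBI, TPR, CNTL of `helper22/FI/SpecA`, IVS, IDM, EIN, CCI). Maximal pairs are defect pairs. Proof: `C = cz P`, `S = {η ∈ IrrOn C | ∃ n ∈ nz P, SB M C (cjF n η) (rep M C f)}` and `a = eS C S`: `CF C`, `IntAt` values, invariant under `nz P` (IVS), `cc (rep f) a = 1` (IDM). Let `P < R ≤ nz P`, `R` a `p`-group, `x ∈ cz R`. `a x = ∑ e' x`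
over the `e' ∈ BB M C` with `rep e' ∈ S` (REP (5) with `c` the indicator of `S`); `R` acts on these `e'` and `e' ↦ e' x` is invariant; ORP: `a x ≡` the sum over the `R`-invariant ones, and for such `e'` `rsk (cz R) e' ≡ ∑_{g : Nin P e' R g} g` (NIS) is an empty sum: `e' = cjF n⁻¹ f` for some `n ∈ nz P`, and `Nin P e' R g` gives `Nin P f (cjS n R) (cjF n g)` (CJB), so `cjS n R = P` by maximality, a contradiction.
So `a x` is `InM`. EXZ for `L = ⊤`: `z`. `cc (rep f) z ≡ cc (rep f) a = 1`, so `cc χ z` is not `InM` (`SBIb`); by DCM there is `y` with `z y` and `cc χ (cls ⊤ y)` not `InM`; `|P| = pp p (Cz ⊤ y)` (EXZ), `|D| ≤ pp p (Cz ⊤ y)` (`DefAt.min`; `omega χ y = cc χ (cls ⊤ y)`). CNTL (`L = ⊤`, `R = P`, `η = rep f`, `ψ = χ`): `g` with `cjS g P ≤ D`; so `cjS g P = D`. -/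
def MXZ_stmt : Prop :=
  ∀ (p : ℕ) (M : Ideal (integralClosure ℤ ℂ)), Setup p M → ∀ (G : Type) [Group G] [Finite G] (D : Subgroup G) (x : G) (χ : G → ℂ),
    χ ∈ Irr G → DefAt p M χ D x → ∀ (P : Subgroup G) (f : G → ℂ), Pai p M P f → SB M (⊤ : Subgroup G) (rep M (cz P) f) χ →
    (∀ (R : Subgroup G) (g : G → ℂ), Nin p M P f R g → R = P) → ∃ g : G, cjS g P = D

/-- **CNZ** (short to medium; from MXZ, UNZ, NSB, CJB, TPR, REP). Every pair of `B` is conjugate into `(D, b(θ))`. Proof: among the `(P, f)` with `Pin Q e P f` (then `Pai P f`: `Nin.r`, or `(P, f) = (Q, e)`) take one with `|P|` maximal: `Nin P f R g` gives `Pin Q e R g`, so `R = P`. `SB M ⊤ (rep f) χ` (NSB (3), `SB.trans`). MXZ: `g₀` with `cjS g₀ P = D`. `θ' = cjF g₀ (rep M (cz P) f) ∈ IrrOn (cz D)`,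
`SB M ⊤ θ' χ` (`SB_inner`), UNZ for `L = ⊤`, `ψ = χ` (`DefL p M ⊤ χ D x`: TPR): `n ∈ nz D` with `SB M (cz D) (cjF n θ') θ`. `g = n * g₀`: `cjS g P = D`, `cjF g f = eS (cz D) (Bl M (cz D) θ)` (CJB (2), REP (3)). Transport `Pin Q e P f` by `g` (CJB). -/
def CNZ_stmt : Prop :=
  ∀ (p : ℕ) (M : Ideal (integralClosure ℤ ℂ)), Setup p M → ∀ (G : Type) [Group G] [Finite G] (D : Subgroup G) (x : G) (θ χ : G → ℂ),
    RtZ p M D x θ χ → ∀ (Q : Subgroup G) (e : G → ℂ), Pai p M Q e → SB M (⊤ : Subgroup G) (rep M (cz Q) e) χ →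
    ∃ g : G, Pin p M (cjS g Q) (cjF g e) D (eS (cz D) (Bl M (cz D) θ))

/-- **FUZ** (short to medium; from EXB, CNTL of `helper22/FI/SpecA`, DFZ, UNZ). Fusion of central elements. Proof: `L = Cz ⊤ v`, `D ≤ L`, `cz D ≤ L`. `D₁ = cjS t⁻¹ D`, `θ₁ = cjF t⁻¹ θ ∈ IrrOn (cz D₁)`; `t v t⁻¹` is central in `D`, so `v` is central in `D₁`: `D₁ ≤ L`, `cz D₁ ≤ L`. EXB (`Q = D`): `ψ ∈ IrrOn L` with `SB M L θ ψ`. DFZ: `DefL p M L ψ D x'`. `SB M L θ₁ ψ`, CNTL (`R = D₁`, `η = θ₁`,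
`L ⊓ cz D₁ = cz D₁`): `l ∈ L` with `cjS l D₁ ≤ D`, so `= D` (cardinality). `θ₂ = cjF l θ₁ = cjF (l t⁻¹) θ ∈ IrrOn (cz D)`, `SB M L θ₂ ψ` (`SB_conj`, `SB_inner`). UNZ: `n ∈ L ⊓ nz D` with `SB M (cz D) (cjF n θ₂) θ`. `τ = (n l t⁻¹)⁻¹ ∈ TT M D θ` (`n l t⁻¹ ∈ nz D`), `k = n l ∈ L`, `t = τ k`. -/
def FUZ_stmt : Prop :=
  ∀ (p : ℕ) (M : Ideal (integralClosure ℤ ℂ)), Setup p M → ∀ (G : Type) [Group G] [Finite G] (D : Subgroup G) (x : G) (θ χ : G → ℂ),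
    RtZ p M D x θ χ → ∀ v ∈ D, v ∈ cz D → ∀ t : G, t * v * t⁻¹ ∈ D → t * v * t⁻¹ ∈ cz D →
    SB M (Cz (⊤ : Subgroup G) v) θ (cjF t⁻¹ θ) → ∃ τ ∈ TT M D θ, ∃ k ∈ Cz (⊤ : Subgroup G) v, t = τ * k

/-- **CLZ** (medium; from UQT, NSB, DFZ, CJR, CNTL, REP). STRONG CLOSURE of `T = {d ^ (q ^ 2) | d ∈ D}` for `q` divisible by `|D : Z(D)|` (`Z(D) = D ⊓ cz D`). Proof: the items `tle`, `tcz`, `tnz` are clear (`d ^ q` is central: the order of `D / Z(D)` divides `q`). `cl`: `L = Cz ⊤ u = cz (zpowers u)`, `ψ = rep M L β ∈ IrrOn L` (`β ∈ BB M L`, UQT). `D' = cjS s⁻¹ D`, `θ' = cjF s⁻¹ θ`; `v = s u s⁻¹ ∈ T` is central in `D`,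
so `u` is central in `D'`: `D' ≤ L`, `cz D' ≤ L`; `RtZ` for `D'`, `θ'` (CJR), DFZ: `DefL p M L ψ D' x'`. `E = D ⊓ cz (zpowers u)`, `e₁ = un D e_θ E`: `Nin (zpowers u) β E e₁` (UQT (3), (4)), `SB M L (rep e₁) ψ` (NSB (1); `E ≤ L`), `cz E ≤ L` (`u ∈ E`). CNTL for `L`, `R = E`, `η = rep e₁`: `l ∈ L` with `cjS l E ≤ D'`. `v = d ^ (q ^ 2)`, so `u = y ^ (q ^ 2)`, `y = s⁻¹ d s ∈ D'`. `|D' : cjS l E| = |D : E|` divides `|D : Z(D)|`,
which divides `q`, so `y ^ q ∈ cjS l E` (for a subgroup `H` of a `p`-group `K`: `y ^ |K : H| ∈ H`, by induction along `H < H.normalizer`). `z = l⁻¹ y ^ q l ∈ D`, `z ^ q = l⁻¹ u l = u` is central in `D`. So `D ≤ L`, `cz D ≤ L`, `Nin (zpowers u) β D e_θ` (UQT (3)), `SB M L θ ψ` (NSB (1), REP). CNTL for `L`, `R = D`, `η = θ`: `k ∈ L` with `cjS k D ≤ D'`, `= D'` (cardinality). `y' = k⁻¹ y k ∈ D`, `y' ^ (q ^ 2) = k⁻¹ u k = u ∈ T`. -/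
def CLZ_stmt : Prop :=
  ∀ (p : ℕ) (M : Ideal (integralClosure ℤ ℂ)), Setup p M → ∀ (G : Type) [Group G] [Finite G] (D T : Subgroup G) (x : G) (θ χ : G → ℂ),
    RtZ p M D x θ χ → ∀ q : ℕ, (D ⊓ cz D).relIndex D ∣ q → (∀ c : G, c ∈ T ↔ ∃ d ∈ D, d ^ (q ^ 2) = c) → ZS p M D T x θ χ

/-- **ZH0** (medium; from DGL, CNTL, CJG, TPR of `helper22/FI/SpecA`, CNZ, UQT, NSB, CJB, REP). HEREDITY, absolute form. Proof: DGL (`K`, `η`, `Q`): `θ₁ ∈ IrrOn (K ⊓ cz Q)`, `K ⊓ cz Q = cz Q`, `SB M K θ₁ η`; `e = eS (cz Q) (Bl M (cz Q) θ₁)`, `Pai Q e` and `SB M ⊤ (rep e) χ` (REP (3), TRNb, `SB.trans`). DGL for `⊤`, `χ`, `D`: `θ ∈ IrrOn (cz D)`, `SB M ⊤ θ χ`: `RtZ` (TPR). CNZ: `g` with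
`Pin Q' e' D e_θ`, `Q' = cjS g Q`, `e' = cjF g e`. `K' = cjS g K`, `η' = cjF g η`: `DefL p M K' η' Q' y'` (CJG), `cz Q' ≤ K'`, `SB M K' (rep e') η'`. (1) `P = Q' ⊔ (D ⊓ cz Q') ≤ D`, `P ≤ K'`, `P ≤ nz Q'`, `cz P ≤ cz Q' ≤ K'`, `f = un D e_θ P`: `Nin Q' e' P f` (UQT (3), (4)), `SB M K' (rep f) (rep e')` (NSB (1)). CNTL (`L = K'`, `R = P`, `η = rep f`): `l ∈ K'` with `l P l⁻¹ ≤ Q'`, so `|P| ≤ |Q'|`,
`P = Q'`. (2) the hypothesis for `l = g`: `cjS g⁻¹ D ≤ K`, `D ≤ K'`; `cz D ≤ cz Q' ≤ K'`. NSB (3): `SB M K' (rep e_θ) (rep e')`, so `SB M K' θ η'`; CNTL (`R = D`): `|D| ≤ |Q'|`, and `Q' ≤ D`. -/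
def ZH0_stmt : Prop :=
  ∀ (p : ℕ) (M : Ideal (integralClosure ℤ ℂ)), Setup p M → ∀ (G : Type) [Group G] [Finite G] (D : Subgroup G) (x : G) (χ : G → ℂ),
    χ ∈ Irr G → DefAt p M χ D x → ∀ (K Q : Subgroup G) (y : G), ∀ η ∈ IrrOn K, SB M (⊤ : Subgroup G) η χ → DefL p M K η Q y → cz Q ≤ K →
    (∃ g : G, cjS g Q ≤ D ∧ D ⊓ cz (cjS g Q) ≤ cjS g Q) ∧
    ((∀ l : G, cjS l Q ≤ D → cjS l⁻¹ D ≤ K) → Nat.card Q = Nat.card D)

/-- **ZHE** (medium; from ZH0 and the transfer rows TR1, TR2, TR3 of `helper37/L5` (compare NDG of `helper37/NA/Spec` and its proof file), CLS, TPR). HEREDITY, relative form. Proof: the group `L` (type), `rN L ψ ∈ Irr L`, `rN L η ∈ IrrOn (K.subgroupOf L)`, `DefAt p M (rN L ψ) (D.subgroupOf L) ⟨x, _⟩`, `DefL p M (K.subgroupOf L) (rN L η) (Q.subgroupOf L) ⟨y, _⟩`,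
`cz (Q.subgroupOf L) = (L ⊓ cz Q).subgroupOf L ≤ K.subgroupOf L`. -/
def ZHE_stmt : Prop :=
  ∀ (p : ℕ) (M : Ideal (integralClosure ℤ ℂ)), Setup p M → ∀ (G : Type) [Group G] [Finite G] (L D : Subgroup G) (x : G) (ψ : G → ℂ),
    ψ ∈ IrrOn L → DefL p M L ψ D x → ∀ (K Q : Subgroup G) (y : G), K ≤ L → ∀ η ∈ IrrOn K, SB M L η ψ → DefL p M K η Q y → L ⊓ cz Q ≤ K →
    (∃ l ∈ L, cjS l Q ≤ D ∧ D ⊓ cz (cjS l Q) ≤ cjS l Q) ∧
    ((∀ l ∈ L, cjS l Q ≤ D → cjS l⁻¹ D ≤ K) → Nat.card Q = Nat.card D)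

/-! ## D. Weights and the local integrality -/

/-- **LAZ** (long; from CNZ, UQT, CJB, NSB, FUZ, REP, TPR; compare LAM of `helper24/BR/SpecA`). The weights. Proof. Let `e_θ = eS (cz D) (Bl M (cz D) θ)`, `β = un Q f (zpowers u)`, `u ∈ Q`. (1) CNZ (`Induces M θ χ`, TPR): `g` with `Pin (cjS g Q) (cjF g f) D e_θ`; so `cjS g Q ≤ D` (UQT (4)). `u' = g u g⁻¹`, `β' = cjF g β`, `Pin (zpowers u') β' D e_θ` (CJB, transitivity; `cjS g (zpowers u) = zpowers u'`). Substituting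
`t = s g`: `LamP u = LamZ u' (rep M (Cz ⊤ u') β')` (`ciT`, `lx` at `s u' s⁻¹`; `SB M (Cz ⊤ u) (rep β) (cjF t⁻¹ θ)` iff `SB M (Cz ⊤ u') (rep β') (cjF s⁻¹ θ)`, FEQ, CJB (2)). CASE `u' ∉ T`: the terms with `s u' s⁻¹ ∉ T` are `0` (`lx`), and there is no `s` with `s u' s⁻¹ ∈ T` in the set (`ZS.cl`); the right side is `0` since `τ u' τ⁻¹ ∉ T` for `τ ∈ TT ≤ nz D` (`tnz` for `τ⁻¹`). CASE `u' ∈ T`: `L = Cz ⊤ u' ≥ D, cz D`.
`Nin (zpowers u') β' D e_θ` (UQT (3), (4); `D ≤ nz (zpowers u')`), `SB M L θ (rep β')` (NSB (1), REP (3), TRNb). The set `Z` of the `s` with `s u' s⁻¹ ∈ T` and `SB M L (rep β') (cjF s⁻¹ θ)` is `{τ k | τ ∈ TT, k ∈ L}`: `⊆` FUZ (`v = u'`, `t = s`); `⊇`: `s u' s⁻¹ = τ u' τ⁻¹ ∈ T`, `SB M (cz D) (cjF τ⁻¹ θ) θ` goes up to `L` (TRNb), apply `cjF k⁻¹` (`SB_conj`, `SB_inner`). The map `TT × L → Z` has fibres of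
`|TT ⊓ L| = |Cz TT u'|` elements, `ciT (τ u' τ⁻¹) = ciT u' = |Cz TT u'| / |TT ⊓ cz T|`. So the sum is `|Cz TT u'|⁻¹ ∑_τ ∑_{k ∈ L} |D : T| * (|Cz TT u'| / |TT ⊓ cz T|) / |L| * lx (τ u' τ⁻¹)`. (2) if a term is not `0` then `t u t⁻¹ ∈ T`, `cz (cjS t⁻¹ D) ≤ Cz ⊤ u`, and `SB M (Cz ⊤ u) (rep β) (cjF t⁻¹ θ)` gives `SB M ⊤ (rep β) (cjF t⁻¹ θ)`
(TRNb), `SB M ⊤ (cjF t⁻¹ θ) θ` (`SB_inner`), `SB M ⊤ (rep f) (rep β)` (NSB (3)); excluded. -/
def LAZ_stmt : Prop :=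
  ∀ (p : ℕ) (M : Ideal (integralClosure ℤ ℂ)), Setup p M → ∀ (G : Type) [Group G] [Finite G] (D T : Subgroup G) (x : G) (θ χ : G → ℂ),
    ZS p M D T x θ χ → ∀ l : T →* ℂˣ, ∀ (Q : Subgroup G) (f : G → ℂ), Pai p M Q f →
    (SB M (⊤ : Subgroup G) (rep M (cz Q) f) θ → ∃ g : G, cjS g Q ≤ D ∧ ∀ u ∈ Q, LamP p M D T θ l Q f u =
      (T.relIndex D : ℂ) * (∑ᶠ τ ∈ (TT M D θ : Set G), lx T l (τ * (g * u * g⁻¹) * τ⁻¹)) / Nat.card (TT M D θ ⊓ cz T : Subgroup G)) ∧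
    (¬ SB M (⊤ : Subgroup G) (rep M (cz Q) f) θ → ∀ u ∈ Q, LamP p M D T θ l Q f u = 0)

/-- **LIZ** (medium; from LAZ, SPC, EXA). Proof: if not `SB M ⊤ (rep f) θ` all is `0`. Otherwise `g` from LAZ. Let `C₀ = TT ⊓ cz T`. (1) `∑_τ lx (τ u' τ⁻¹) / |C₀|`, `u' = g u g⁻¹`: the function of `τ ∈ TT` is invariant under `τ ↦ τ c⁻¹`, `c ∈ C₀` (if `τ u' τ⁻¹ ∈ T` then `u' ∈ T` by `tnz`, it commutes with `c`): `FRB_orb` for the action of `C₀` on `TT M D θ` (stabilisers trivial), or representatives; its values are roots of unity or `0`.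
(2) `Q₀ = {u ∈ Q | g u g⁻¹ ∈ T}`, a subgroup, commutative. For `τ ∈ TT` the function `k_τ u = lx (τ g u g⁻¹ τ⁻¹)` is `0` on `Q` outside `Q₀` and `LC Q₀ k_τ`. SPC (`k' * k_τ`) and EXA (`R = Q₀`, `a = c'⁻¹`, `F u = k_τ u * ψ (u c)`): `J τ = (∑_{u ∈ Q₀} k_τ u * ψ (u c) * ψ' ((u c')⁻¹)) / |Q₀|` is `IntAt`, and `J (τ c'') = J τ` for `c'' ∈ C₀`. The number is `(|D : T| * |Q₀| / |Q|) * (∑_τ J τ) / |C₀|`; `|Q : Q₀|` divides `|D : T|`
(`Q' = cjS g Q ≤ D`, `Q₀' = Q' ⊓ T`, `|Q' : Q' ⊓ T| = |Q' T : T|`, `T` central in `D`; `Subgroup.relIndex_sup_left` or the like), so the first factor is a natural number. -/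
def LIZ_stmt : Prop :=
  ∀ (p : ℕ) (M : Ideal (integralClosure ℤ ℂ)), Setup p M → ∀ (G : Type) [Group G] [Finite G] (D T : Subgroup G) (x : G) (θ χ : G → ℂ),
    ZS p M D T x θ χ → ∀ l : T →* ℂˣ, ∀ (Q : Subgroup G) (f : G → ℂ), Pai p M Q f →
    (∀ u ∈ Q, IntAt M (LamP p M D T θ l Q f u)) ∧
    ∀ c ∈ cz Q, ∀ c' ∈ cz Q, ∀ ψ ∈ IrrOn (⊤ : Subgroup G), ∀ ψ' ∈ IrrOn (⊤ : Subgroup G),
      IntAt M ((∑ᶠ u ∈ (Q : Set G), LamP p M D T θ l Q f u * ψ (u * c) * ψ' (u * c')⁻¹) / Nat.card Q)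

/-- **TBZ** (medium; from REP, EXB, FEQ, EVF; as THB of `helper24/BR/SpecA`). `THZ` by blocks. Proof: `K = Cz ⊤ u`. For `t` with `v = t u t⁻¹ ∈ T`: `Cz ⊤ v = cjS t K`, the function `x ↦ eS (Cz ⊤ v) (Bl M (Cz ⊤ v) θ) (t x t⁻¹)` is `e_t := eS K (Bl M K (cjF t⁻¹ θ))` (FEQ), so by EVF (last item, `H = ⊤`) the factor `ev ψ (..) (t (u w) t⁻¹)` is `ev ψ e_t (u w)`. `D' = cjS t⁻¹ D ≤ K`, `cz D' ≤ K` (`v` is central in `D`): EXB
(`L = K`, `Q = D'`, `cjF t⁻¹ θ ∈ IrrOn (cz D')`) gives `ψ' ∈ IrrOn K` with `SB M K (cjF t⁻¹ θ) ψ'`, so `e_t ∈ BB M K` and (REP (3)) for `e ∈ BB M K`: `e = e_t` iff `SB M K (rep M K e) (cjF t⁻¹ θ)`. The terms with `t u t⁻¹ ∉ T` are `0` (`lx`). -/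
def TBZ_stmt : Prop :=
  ∀ (p : ℕ) (M : Ideal (integralClosure ℤ ℂ)), Setup p M → ∀ (G : Type) [Group G] [Finite G] (D T : Subgroup G) (x : G) (θ χ : G → ℂ),
    ZS p M D T x θ χ → ∀ l : T →* ℂˣ, ∀ ψ ∈ IrrOn (⊤ : Subgroup G), ∀ u w : G, w ∈ Cz (⊤ : Subgroup G) u →
    THZ M D T θ l ψ u w = ∑ᶠ e ∈ BB M (Cz (⊤ : Subgroup G) u), LamZ M D T θ l u (rep M (Cz (⊤ : Subgroup G) u) e) * ev ψ e (u * w)

/-- **TSZ** (medium; from TBZ, DEC, UQT, LIZ). Reorganisation. Proof: `N₀` from DEC for `P`, `r`; `q = p ^ N`. For `u ∈ P`, `e ∈ BB M (Cz ⊤ u)` (`Cz ⊤ u = cz (zpowers u)`): `Pai (zpowers u) e`, `ev ψ e (u w) = ∑_x e x * ψ (u w x)`, DEC with `F x = ψ (u w x)`; the factors `LamZ u (rep e) = LamP (zpowers u) e u` (UQT (1)) are `IntAt` (LIZ), `ψ'` integral. So the first number is modulo `Small r`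
`∑_{u ∈ P} ∑_{e ∈ BB M (Cz ⊤ u)} LamZ u (rep e) * ψ' ((u w)⁻¹) * ∑_{z ∈ Up P (zpowers u) e} YY P z.1 z.2 q (ψ (u w ·))`. Exchange: for a pair `z`, `z.1 ≤ P`, `Pin (zpowers u) e z.1 z.2` iff `u ∈ z.1` and `e = un z.1 z.2 (zpowers u)` (UQT (2), (4)). -/
def TSZ_stmt : Prop :=
  ∀ (p : ℕ) (M : Ideal (integralClosure ℤ ℂ)), Setup p M → ∀ (G : Type) [Group G] [Finite G] (D T : Subgroup G) (x : G) (θ χ : G → ℂ),
    ZS p M D T x θ χ → ∀ l : T →* ℂˣ, ∀ ψ ∈ IrrOn (⊤ : Subgroup G), ∀ ψ' ∈ IrrOn (⊤ : Subgroup G), ∀ P : Subgroup G, IsPGroup p P →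
    ∀ w ∈ cz P, ∀ r : ℕ, ∃ N₀ : ℕ, ∀ N ≥ N₀,
    Small p M r (∑ᶠ u ∈ (P : Set G), THZ M D T θ l ψ u w * ψ' (u * w)⁻¹ -
      ∑ᶠ z ∈ {z : Subgroup G × (G → ℂ) | z.1 ≤ P ∧ Pai p M z.1 z.2}, ∑ᶠ t ∈ {t : Fin (p ^ N) → G | stb P z.1 z.2 t = z.1},
        (∏ i, z.2 (t i)) * ∑ᶠ u ∈ (z.1 : Set G), LamP p M D T θ l z.1 z.2 u * ψ (u * (w * (List.ofFn t).prod)) * ψ' (u * w)⁻¹)

/-- **ORZ** (medium; from LIZ, CJB, REP and `FRB_orb`). Divisibility. Proof: `P` acts by conjugation on the finite set of the triples `(R, f, t)` with `R ≤ P`, `Pai R f`, `stb P R f t = R`: `a • (R, f, t) = (cjS a R, cjF a f, a t a⁻¹)` (CJB; `stb P (cjS a R) (cjF a f) (a t a⁻¹) = cjS a (stb P R f t)`), the stabiliser of `(R, f, t)` is `stb P R f t = R`. The summand is invariant: `(cjF a f) (a t_i a⁻¹) = f t_i`,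
`LamP (cjS a R) (cjF a f) (a u a⁻¹) = LamP R f u` (`un (cjS a R) (cjF a f) (cjS a (zpowers u)) = cjF a (un R f (zpowers u))` by CJB and UQT, or by uniqueness; `LamZ` by substitution `t ↦ t a⁻¹`, FEQ), `w` commutes with `a`, `ψ`, `ψ'` are class functions. Divided by `|R|` it is `∏ f (t i)` (`IntAt`, REP) times `IntAt` by LIZ with `c = w * ∏ t`, `c' = w` (`R = stb ≤ centralizer (range t)`, so `t i ∈ cz R`). -/
def ORZ_stmt : Prop :=
  ∀ (p : ℕ) (M : Ideal (integralClosure ℤ ℂ)), Setup p M → ∀ (G : Type) [Group G] [Finite G] (D T : Subgroup G) (x : G) (θ χ : G → ℂ),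
    ZS p M D T x θ χ → ∀ l : T →* ℂˣ, ∀ ψ ∈ IrrOn (⊤ : Subgroup G), ∀ ψ' ∈ IrrOn (⊤ : Subgroup G), ∀ P : Subgroup G, IsPGroup p P →
    ∀ w ∈ cz P, ∀ q : ℕ,
    IntAt M ((∑ᶠ z ∈ {z : Subgroup G × (G → ℂ) | z.1 ≤ P ∧ Pai p M z.1 z.2}, ∑ᶠ t ∈ {t : Fin q → G | stb P z.1 z.2 t = z.1},
        (∏ i, z.2 (t i)) * ∑ᶠ u ∈ (z.1 : Set G), LamP p M D T θ l z.1 z.2 u * ψ (u * (w * (List.ofFn t).prod)) * ψ' (u * w)⁻¹) /
      Nat.card P)

/-- **LOZ** (short; from TSZ, ORZ, TBZ, LIZ). THE LOCAL INTEGRALITY. Proof (1): `|P| = p ^ r`; TSZ for this `r`, divide by `|P|`. (2) TBZ; `LamZ u (rep e) = LamP (zpowers u) e u` (`PEl p u`: `zpowers u` is a `p`-group) is `IntAt`, `ev ψ e` too. -/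
def LOZ_stmt : Prop :=
  ∀ (p : ℕ) (M : Ideal (integralClosure ℤ ℂ)), Setup p M → ∀ (G : Type) [Group G] [Finite G] (D T : Subgroup G) (x : G) (θ χ : G → ℂ),
    ZS p M D T x θ χ → ∀ l : T →* ℂˣ, ∀ ψ ∈ IrrOn (⊤ : Subgroup G), ∀ ψ' ∈ IrrOn (⊤ : Subgroup G),
    (∀ P : Subgroup G, IsPGroup p P → ∀ w ∈ cz P,
      IntAt M ((∑ᶠ u ∈ (P : Set G), THZ M D T θ l ψ u w * ψ' (u * w)⁻¹) / Nat.card P)) ∧
    ∀ u w : G, PEl p u → w ∈ Cz (⊤ : Subgroup G) u → IntAt M (THZ M D T θ l ψ u w)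

/-- **LKZ** (short to medium; pure substitution; as LNK of `helper70/BR/SpecR`, proof `Pool/Agent/helper14/BR/LNK.lean`). (1) exchange the sums: for each `t` the map `(u, w) ↦ (t u t⁻¹, t w t⁻¹)` is a bijection from the pairs with `t u t⁻¹ ∈ T` onto the `(v, w')`, `v ∈ T`, `w' ∈ C(v)` `p`-regular. (2) substitution `t ↦ t g⁻¹`. -/
def LKZ_stmt : Prop :=
  ∀ (p : ℕ) (M : Ideal (integralClosure ℤ ℂ)), Setup p M → ∀ (G : Type) [Group G] [Finite G] (D T : Subgroup G) (x : G) (θ χ : G → ℂ),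
    ZS p M D T x θ χ → ∀ l : T →* ℂˣ, ∀ ψ ∈ IrrOn (⊤ : Subgroup G), ∀ ψ' ∈ IrrOn (⊤ : Subgroup G),
    ((Nat.card G : ℂ) * nlZ p M D T θ l ψ ψ' =
      ∑ᶠ z ∈ {z : G × G | PEl p z.1 ∧ PReg p z.2 ∧ z.1 * z.2 = z.2 * z.1}, THZ M D T θ l ψ z.1 z.2 * ψ' (z.1 * z.2)⁻¹) ∧
    ∀ g u w, THZ M D T θ l ψ (g * u * g⁻¹) (g * w * g⁻¹) = THZ M D T θ l ψ u w

/-- **BPZ** (THE OUTPUT; short to medium; helper68; from LOZ, LKZ and `FRB`, `FRB_orb`). Proof: group the sum of LKZ by `w`; `FRB` for the group `C(w)`, `f u = THZ u w * ψ' ((u w)⁻¹)` if `PEl p u`, else `0`: `∑_u f u` is `|C(w)|` times `IntAt`; `FRB_orb` for the conjugation action of `G` on the `p`-regular `w`. -/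
def BPZ_stmt : Prop :=
  ∀ (p : ℕ) (M : Ideal (integralClosure ℤ ℂ)), Setup p M → ∀ (G : Type) [Group G] [Finite G] (D T : Subgroup G) (x : G) (θ χ : G → ℂ),
    ZS p M D T x θ χ → ∀ l : T →* ℂˣ, ∀ ψ ∈ IrrOn (⊤ : Subgroup G), ∀ ψ' ∈ IrrOn (⊤ : Subgroup G),
    IntAt M (nlZ p M D T θ l ψ ψ')

end Pool.Agent.GB
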