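import Pool.Agent.helper68.GB.Spec

/-!
# Project GB (MP_baa4d7_al), row BPZ: Broué-Puig integrality for nonabelian defect groups, final assembly
-/

set_option autoImplicit false

namespace Pool.Agent.GB

open Pool.Agent.helper58.DC Pool.Agent.DI Pool.Agent.GR Pool.Agent.OB Pool.Agent.DR Pool.Agent.FI Pool.Agent.FI3 Pool.Agent.FI4 Pool.Agent.LE Pool.Agent.BR

/-- `G` with the conjugation action -/
def BPZ_W (G : Type) : Type := G

def BPZ_v {G : Type} (w : BPZ_W G) : G := w

def BPZ_m {G : Type} (w : G) : BPZ_W G := w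

noncomputable instance {G : Type} [Group G] [Finite G] : Fintype (BPZ_W G) := by
  unfold BPZ_W
  exact Fintype.ofFinite _

instance {G : Type} [Group G] : MulAction G (BPZ_W G) where
  smul g z := BPZ_m (g * BPZ_v z * g⁻¹)
  one_smul z := by
    change 1 * BPZ_v z * 1⁻¹ = BPZ_v z
    rw [inv_one, mul_one, one_mul]
  mul_smul a b z := by
    change a * b * BPZ_v z * (a * b)⁻¹ = a * (b * BPZ_v z * b⁻¹) * a⁻¹
    group

section

variable {G : Type} [Group G]

theorem BPZ_PEl_sub {p : ℕ} {K : Subgroup G} (u : K) : PEl p u ↔ PEl p (u : G) := by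
  unfold PEl
  refine exists_congr fun k => ?_
  rw [Subtype.ext_iff]
  rfl

theorem BPZ_PEl_conj {p : ℕ} (g u : G) : PEl p (g * u * g⁻¹) ↔ PEl p u := by
  unfold PEl
  refine exists_congr fun k => ?_
  rw [conj_pow]
  constructor
  · intro h
    have h2 : g * u ^ p ^ k = g := by
      have h3 := congrArg (fun x => x * g) h
      simpa using h3
    exact mul_left_cancel (h2.trans (mul_one g).symm)
  · intro h
    rw [h, mul_one, mul_inv_cancel]

theorem BPZ_PReg_conj {p : ℕ} (g u : G) : PReg p (g * u * g⁻¹) ↔ PReg p u := by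
  unfold PReg
  have h1 : orderOf (g * u * g⁻¹) = orderOf u := by
    rw [← MulAut.conj_apply]
    exact orderOf_injective (MulAut.conj g).toMonoidHom (MulAut.conj g).injective u
  rw [h1]

end

open Classical in
theorem BPZ (hLOZ : LOZ_stmt) (hLKZ : LKZ_stmt) (hB2 : B2_stmt) : BPZ_stmt := by
  intro p M hS G _ _ D T x θ χ hZ l ψ hψ ψ' hψ'
  have : Fact p.Prime := ⟨hS.pr⟩
  let _ : Fintype G := Fintype.ofFinite G
  obtain ⟨hL1, hL2⟩ := hLOZ p M hS G D T x θ χ hZ l ψ hψ ψ' hψ'
  obtain ⟨hK1, hK2⟩ := hLKZ p M hS G D T x θ χ hZ l ψ hψ ψ' hψ'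
  have hcl : ∀ g a : G, ψ' (g * a * g⁻¹) = ψ' a := fun g a => ((hB2 G ⊤).2 ψ' hψ').2.1 a g (Subgroup.mem_top g)
  have hint : ∀ a : G, IsIntegral ℤ (ψ' a) := fun a => ((hB2 G ⊤).2 ψ' hψ').2.2.1 a
  -- the summand
  let Φ : G → G → ℂ := fun u w => THZ M D T θ l ψ u w * ψ' (u * w)⁻¹
  have hΦ : ∀ g u w, Φ (g * u * g⁻¹) (g * w * g⁻¹) = Φ u w := by
    intro g u w
    show THZ M D T θ l ψ (g * u * g⁻¹) (g * w * g⁻¹) * ψ' (g * u * g⁻¹ * (g * w * g⁻¹))⁻¹ = _
    rw [hK2]
    have h1 : (g * u * g⁻¹ * (g * w * g⁻¹))⁻¹ = g * (u * w)⁻¹ * g⁻¹ := by group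
    rw [h1, hcl]
  let Tg : G → ℂ := fun w => if PReg p w then ∑ u : G, (if PEl p u ∧ u * w = w * u then Φ u w else 0) else 0
  have hTg : ∀ (g w : G), Tg (g * w * g⁻¹) = Tg w := by
    intro g w
    show (if PReg p (g * w * g⁻¹) then ∑ u : G, (if PEl p u ∧ u * (g * w * g⁻¹) = (g * w * g⁻¹) * u then
      Φ u (g * w * g⁻¹) else 0) else 0) = _
    rw [BPZ_PReg_conj]
    show _ = if PReg p w then ∑ u : G, (if PEl p u ∧ u * w = w * u then Φ u w else 0) else 0
    by_cases hw : PReg p w
    · rw [if_pos hw, if_pos hw, ← Equiv.sum_comp (MulAut.conj g).toEquiv]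
      refine Finset.sum_congr rfl fun u _ => ?_
      have h1 : (MulAut.conj g).toEquiv u = g * u * g⁻¹ := rfl
      rw [h1, BPZ_PEl_conj, hΦ]
      have h2 : g * u * g⁻¹ * (g * w * g⁻¹) = g * w * g⁻¹ * (g * u * g⁻¹) ↔ u * w = w * u := by
        have h3 : g * u * g⁻¹ * (g * w * g⁻¹) = g * (u * w) * g⁻¹ := by group
        have h4 : g * w * g⁻¹ * (g * u * g⁻¹) = g * (w * u) * g⁻¹ := by group
        rw [h3, h4]
        exact ⟨fun h => mul_left_cancel (mul_right_cancel h), fun h => by rw [h]⟩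
      rw [h2]
    · rw [if_neg hw, if_neg hw]
  have hI : ∀ w : G, IntAt M (Tg w / Nat.card (Cz (⊤ : Subgroup G) w)) := by
    intro w
    by_cases hw : PReg p w
    · set K : Subgroup G := Cz (⊤ : Subgroup G) w with hK
      have hKm : ∀ u : G, u ∈ K ↔ u * w = w * u := by
        intro u
        rw [hK]
        unfold Cz
        rw [top_inf_eq, Subgroup.mem_centralizer_singleton_iff]
      let f : K → ℂ := fun u => if PEl p (u : G) then Φ u w else 0
      have h1 := FRB hS K f (by
        intro h u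
        show (if PEl p ((h * u * h⁻¹ : K) : G) then Φ ((h * u * h⁻¹ : K) : G) w else 0) = if PEl p (u : G) then Φ u w else 0
        have h2 : ((h * u * h⁻¹ : K) : G) = (h : G) * u * (h : G)⁻¹ := rfl
        rw [h2, BPZ_PEl_conj]
        have h3 : (h : G) * w * (h : G)⁻¹ = w := by
          rw [(hKm h).1 h.2]
          group
        have h4 : Φ ((h : G) * u * (h : G)⁻¹) w = Φ u w := by
          have h5 := hΦ (h : G) (u : G) w
          rwa [h3] at h5
        rw [h4]) (by
        intro u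
        show IntAt M (if PEl p (u : G) then Φ u w else 0)
        by_cases hu : PEl p (u : G)
        · rw [if_pos hu]
          refine IntAt.mul hS (hL2 _ _ hu ?_) (IntAt.of_isIntegral hS (hint _))
          unfold Cz
          rw [top_inf_eq, Subgroup.mem_centralizer_singleton_iff]
          exact ((hKm u).1 u.2).symm
        · rw [if_neg hu]
          exact IntAt.zero hS) (by
        intro P hP
        have h2 := hL1 (P.map K.subtype) (hP.map _) w (by
          rw [Subgroup.mem_centralizer_iff]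
          rintro _ ⟨u, _, rfl⟩
          exact (hKm u).1 u.2)
        have h3 : Nat.card (P.map K.subtype) = Nat.card P :=
          Nat.card_congr (P.equivMapOfInjective _ K.subtype_injective).symm.toEquiv
        rw [h3] at h2
        have h4 : ∑ᶠ u ∈ ((P.map K.subtype : Subgroup G) : Set G), THZ M D T θ l ψ u w * ψ' (u * w)⁻¹ =
            ∑ᶠ u ∈ (P : Set K), f u := by
          have h5 : ((P.map K.subtype : Subgroup G) : Set G) = (fun u : K => (u : G)) '' (P : Set K) := rfl
          rw [h5, finsum_mem_image (fun a _ b _ h => Subtype.ext h)]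
          refine finsum_mem_congr rfl fun u hu => ?_
          show Φ u w = if PEl p (u : G) then Φ u w else 0
          rw [if_pos]
          rw [← BPZ_PEl_sub]
          obtain ⟨k, hk⟩ := hP ⟨u, hu⟩
          exact ⟨k, congrArg Subtype.val hk⟩
        rwa [h4] at h2)
      have h2 : ∑ᶠ u ∈ {u : K | PEl p u}, f u = Tg w := by
        show _ = if PReg p w then ∑ u : G, (if PEl p u ∧ u * w = w * u then Φ u w else 0) else 0
        rw [if_pos hw, ← finsum_eq_sum_of_fintype]
        have h3 : ∀ u : G, (if PEl p u ∧ u * w = w * u then Φ u w else 0) =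
            ∑ᶠ (_ : u ∈ (fun u : K => (u : G)) '' {u : K | PEl p u}), Φ u w := by
          intro u
          by_cases hu : PEl p u ∧ u * w = w * u
          · rw [if_pos hu, finsum_eq_if, if_pos]
            exact ⟨⟨u, (hKm u).2 hu.2⟩, (BPZ_PEl_sub _).2 hu.1, rfl⟩
          · rw [if_neg hu, finsum_eq_if, if_neg]
            rintro ⟨v, hv, rfl⟩
            exact hu ⟨(BPZ_PEl_sub v).1 hv, (hKm v).1 v.2⟩
        rw [finsum_congr h3, finsum_mem_image (fun a _ b _ h => Subtype.ext h)]
        refine finsum_mem_congr rfl fun u hu => ?_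
        show (if PEl p (u : G) then Φ u w else 0) = Φ u w
        rw [if_pos ((BPZ_PEl_sub u).1 hu)]
      rwa [h2] at h1
    · show IntAt M ((if PReg p w then ∑ u : G, (if PEl p u ∧ u * w = w * u then Φ u w else 0) else 0) / _)
      rw [if_neg hw, zero_div]
      exact IntAt.zero hS
  have hst : ∀ w : BPZ_W G, MulAction.stabilizer G w = Cz (⊤ : Subgroup G) (BPZ_v w) := by
    intro w
    ext g
    rw [MulAction.mem_stabilizer_iff]
    show g * BPZ_v w * g⁻¹ = BPZ_v w ↔ g ∈ Cz (⊤ : Subgroup G) (BPZ_v w)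
    unfold Cz
    rw [top_inf_eq, Subgroup.mem_centralizer_singleton_iff]
    constructor
    · intro h
      calc g * BPZ_v w = g * BPZ_v w * g⁻¹ * g := by group
        _ = BPZ_v w * g := by rw [h]
    · intro h
      rw [h]
      group
  have hmain := FRB_orb hS G (BPZ_W G) (fun w => Tg (BPZ_v w)) (fun g w => hTg g (BPZ_v w)) (fun w => by
    rw [hst]
    exact hI (BPZ_v w))
  have hsum : ∑ w : BPZ_W G, Tg (BPZ_v w) = (Nat.card G : ℂ) * nlZ p M D T θ l ψ ψ' := by
    rw [hK1]
    have h1 : ∑ᶠ z ∈ {z : G × G | PEl p z.1 ∧ PReg p z.2 ∧ z.1 * z.2 = z.2 * z.1}, THZ M D T θ l ψ z.1 z.2 * ψ' (z.1 * z.2)⁻¹ =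
        ∑ z : G × G, if PEl p z.1 ∧ PReg p z.2 ∧ z.1 * z.2 = z.2 * z.1 then Φ z.1 z.2 else 0 := by
      rw [← finsum_eq_sum_of_fintype]
      refine finsum_congr fun z => ?_
      rw [finsum_eq_if]
      rfl
    rw [h1, Fintype.sum_prod_type_right]
    have h2 : ∑ w : BPZ_W G, Tg (BPZ_v w) = ∑ w : G, Tg w :=
      Fintype.sum_equiv (Equiv.refl G : BPZ_W G ≃ G) _ _ fun _ => rfl
    rw [h2]
    refine Finset.sum_congr rfl fun w _ => ?_
    show (if PReg p w then ∑ u : G, (if PEl p u ∧ u * w = w * u then Φ u w else 0) else 0) = _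
    by_cases hw : PReg p w
    · rw [if_pos hw]
      refine Finset.sum_congr rfl fun u _ => ?_
      simp only [hw, true_and]
    · rw [if_neg hw]
      symm
      refine Finset.sum_eq_zero fun u _ => ?_
      rw [if_neg]
      rintro ⟨-, h, -⟩
      exact hw h
  rw [hsum] at hmain
  have hG : (Nat.card G : ℂ) ≠ 0 := by exact_mod_cast (Nat.card_pos (α := G)).ne'
  rwa [mul_div_cancel_left₀ _ hG] at hmain

end Pool.Agent.GB
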