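import Pool.Agent.helper68.GB.Spec

/-!
# Project GB (MP_baa4d7_al), row DEC: the decomposition of a sum over a block idempotent
-/

set_option autoImplicit false

namespace Pool.Agent.GB

open Pool.Agent.helper58.DC Pool.Agent.DI Pool.Agent.GR Pool.Agent.OB Pool.Agent.DR Pool.Agent.FI Pool.Agent.FI3 Pool.Agent.FI4 Pool.Agent.LE Pool.Agent.BR

section

variable {G : Type} [Group G]

/-- the normaliser condition in a `p`-group -/
theorem DEC_nc [Finite G] {p : ℕ} (hp : p.Prime) {R Q : Subgroup G} (hR : IsPGroup p R) (hQ : Q ≤ R) (h : R ⊓ nz Q ≤ Q) :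
    R = Q := by
  have : Fact p.Prime := ⟨hp⟩
  by_contra hne
  have hnil : Group.IsNilpotent R := IsPGroup.isNilpotent hR
  have hnc : NormalizerCondition R := Group.normalizerCondition_of_isNilpotent
  have hlt : Q.subgroupOf R < ⊤ := by
    refine lt_top_iff_ne_top.2 (fun h1 => hne ?_)
    rw [Subgroup.subgroupOf_eq_top] at h1
    exact le_antisymm h1 hQ
  have h3 := hnc _ hlt
  rw [← Subgroup.subgroupOf_normalizer_eq hQ] at h3
  obtain ⟨x, hx1, hx2⟩ := SetLike.exists_of_lt h3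
  exact hx2 (h ⟨x.2, hx1⟩)

open Classical in
/-- grouping a sum by the values of a map -/
theorem DEC_up {α β : Type} [PartialOrder β] [Fintype β] (s : Finset α) (π : α → β) (g : α → ℂ) (b : β) :
    ∑ b' ∈ Finset.univ.filter (fun b' => b ≤ b'), ∑ a ∈ s.filter (fun a => π a = b'), g a =
      ∑ a ∈ s.filter (fun a => b ≤ π a), g a := by
  rw [← Finset.sum_fiberwise_of_maps_to (s := s.filter (fun a => b ≤ π a)) (t := Finset.univ.filter (fun b' => b ≤ b'))
    (g := π) (fun a ha => Finset.mem_filter.2 ⟨Finset.mem_univ _, (Finset.mem_filter.1 ha).2⟩) g]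
  refine Finset.sum_congr rfl fun b' hb' => Finset.sum_congr ?_ fun _ _ => rfl
  ext a
  simp only [Finset.mem_filter]
  constructor
  · rintro ⟨h1, h2⟩
    exact ⟨⟨h1, h2 ▸ (Finset.mem_filter.1 hb').2⟩, h2⟩
  · rintro ⟨⟨h1, -⟩, h2⟩
    exact ⟨h1, h2⟩

/-- powers of an idempotent -/
theorem DEC_idem [Finite G] (hCVF : CVF_stmt) {e : G → ℂ} (he : cv e e = e) (n : ℕ) : cvp e (n + 1) = e := by
  induction n with
  | zero =>
    change cv (cvp e 0) e = e
    exact ((hCVF G).2.2.2.1 e).1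
  | succ n ih =>
    change cv (cvp e (n + 1)) e = e
    rw [ih, he]

theorem DEC_rsk {K : Subgroup G} {e : G → ℂ} (he : ∀ x, x ∉ K → e x = 0) : rsk K e = e := by
  funext x
  unfold rsk
  by_cases hx : x ∈ K
  · rw [if_pos hx]
  · rw [if_neg hx, he x hx]

/-- The pairs above a pair form a finite set. -/
theorem DEC_fin [Finite G] {p : ℕ} {M : Ideal (integralClosure ℤ ℂ)} (hS : Setup p M) (hREP : REP_stmt) (P Q : Subgroup G)
    (e : G → ℂ) : (Up p M P Q e).Finite := by
  have h1 : (⋃ R : Subgroup G, (fun f => (R, f)) '' (BB M (cz R)) : Set (Subgroup G × (G → ℂ))).Finite :=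
    Set.finite_iUnion fun R => ((hREP p M hS G (cz R)).1).image _
  refine h1.subset ?_
  rintro ⟨R, f⟩ ⟨-, h2, -⟩
  exact Set.mem_iUnion.2 ⟨R, ⟨f, h2.bb, rfl⟩⟩

theorem DEC_uni [Finite G] {p : ℕ} {M : Ideal (integralClosure ℤ ℂ)} (hS : Setup p M) (hREP : REP_stmt) (hPWS : PWS_stmt)
    (r : ℕ) : ∃ N₀ : ℕ, ∀ N ≥ N₀, ∀ (Q S : Subgroup G) (e : G → ℂ), Pai p M Q e → IsPGroup p S → Q ≤ S → S ≤ nz Q →
      Inv S e → ∀ x, Small p M r (cvp (rsk (cz S) e) (p ^ N) x - ∑ᶠ f ∈ {f | Nin p M Q e S f}, f x) := by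
  have h1 : ∀ z : Subgroup G × Subgroup G, ∀ᶠ N in Filter.atTop, ∀ e ∈ BB M (cz z.1), Pai p M z.1 e → IsPGroup p z.2 →
      z.1 ≤ z.2 → z.2 ≤ nz z.1 → Inv z.2 e →
      ∀ x, Small p M r (cvp (rsk (cz z.2) e) (p ^ N) x - ∑ᶠ f ∈ {f | Nin p M z.1 e z.2 f}, f x) := by
    intro z
    rw [Filter.eventually_all_finite (hREP p M hS G (cz z.1)).1]
    intro e _
    by_cases hc : Pai p M z.1 e ∧ IsPGroup p z.2 ∧ z.1 ≤ z.2 ∧ z.2 ≤ nz z.1 ∧ Inv z.2 e
    · obtain ⟨N₀, hN⟩ := hPWS p M hS G z.1 z.2 e hc.1 hc.2.1 hc.2.2.1 hc.2.2.2.1 hc.2.2.2.2 r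
      exact Filter.eventually_atTop.2 ⟨N₀, fun N hN' _ _ _ _ _ => hN N hN'⟩
    · refine Filter.Eventually.of_forall fun N h2 h3 h4 h5 h6 => ?_
      exact absurd ⟨h2, h3, h4, h5, h6⟩ hc
  obtain ⟨N₀, hN₀⟩ := Filter.eventually_atTop.1 (Filter.eventually_all.2 h1)
  exact ⟨N₀, fun N hN Q S e hQ hp h2 h3 h4 => hN₀ N hN (Q, S) e hQ.bb hQ hp h2 h3 h4⟩

end

open Classical in
theorem DEC (hDEU : DEU_stmt) (hPWS : PWS_stmt) (hUQT : UQT_stmt) (hREP : REP_stmt) (hCVF : CVF_stmt) : DEC_stmt := by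
  intro p M hS G _ _ P hP r
  have : Fact p.Prime := ⟨hS.pr⟩
  let _ : Fintype G := Fintype.ofFinite G
  let _ : Fintype (Subgroup G) := Fintype.ofFinite _
  obtain ⟨N₀, hN₀⟩ := DEC_uni (G := G) hS hREP hPWS r
  refine ⟨N₀, fun N hN F hF Q => ?_⟩
  have hPW := hN₀ N hN
  set q : ℕ := p ^ N with hq
  have hq0 : ∃ q', q = q' + 1 := ⟨q - 1, by
    have : 0 < q := pow_pos hS.pr.pos N
    omega⟩
  let yy : Subgroup G × (G → ℂ) → ℂ := fun z => YY P z.1 z.2 q F
  have hfin : ∀ (Q : Subgroup G) (e : G → ℂ), (Up p M P Q e).Finite := DEC_fin hS hREP P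
  induction Q using WellFoundedGT.induction with
  | ind Q ih =>
  intro e hQe hQP
  set UF : Finset (Subgroup G × (G → ℂ)) := (hfin Q e).toFinset with hUF
  have hUm : ∀ z, z ∈ UF ↔ z.1 ≤ P ∧ Pai p M z.1 z.2 ∧ Pin p M Q e z.1 z.2 := fun z => by
    rw [hUF, Set.Finite.mem_toFinset]
    rfl
  let g : (Fin q → G) → ℂ := fun t => (∏ i, e (t i)) * F (List.ofFn t).prod
  let pt : (Fin q → G) → Subgroup G := fun t => stb P Q e t
  let pz : Subgroup G × (G → ℂ) → Subgroup G := fun z => z.1 ⊓ nz Q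
  let y : Subgroup G → ℂ := fun S => ∑ t ∈ Finset.univ.filter (fun t => pt t = S), g t
  let zz : Subgroup G → ℂ := fun S => ∑ z ∈ UF.filter (fun z => pz z = S), yy z
  obtain ⟨hD1, hD2, hD3⟩ := hDEU p M hS G P Q e hQe hQP q F
  have hQA : Q ≤ P ⊓ nz Q ⊓ sfn e := by
    refine le_inf (le_inf hQP Subgroup.le_normalizer) ?_
    by_cases hall : ∀ t : Fin q → G, (∏ i, e (t i)) = 0
    · -- `e` is zero, impossible; but then every element stabilises it
      have he0 : ∀ x, e x = 0 := by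
        intro x
        obtain ⟨q', hq'⟩ := hq0
        have h1 := hall fun _ => x
        rw [Finset.prod_const, Finset.card_univ, Fintype.card_fin] at h1
        exact pow_eq_zero_iff (by omega) |>.1 h1
      intro a _ x
      rw [he0, he0]
    · push Not at hall
      obtain ⟨t, ht⟩ := hall
      have h1 := hD2 t ht
      exact h1.trans (inf_le_left.trans inf_le_right)
  -- facts on the elements of `UF`
  have hU1 : ∀ z ∈ UF, Q ≤ z.1 ∧ e = un p M z.1 z.2 Q := fun z hz =>
    (hUQT p M hS G z.1 z.2 ((hUm z).1 hz).2.1).2.2.2.1 Q e ((hUm z).1 hz).2.2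
  have hU2 : ∀ z ∈ UF, ∀ S : Subgroup G, Q ≤ S → S ≤ z.1 ⊓ nz Q → Nin p M Q e S (un p M z.1 z.2 S) := by
    intro z hz S h1 h2
    have h3 := (hUQT p M hS G z.1 z.2 ((hUm z).1 hz).2.1).2.2.1 Q S h1 (h2.trans inf_le_left) (h2.trans inf_le_right)
    rwa [← (hU1 z hz).2] at h3
  have hU3 : ∀ z ∈ UF, Q ≤ pz z := fun z hz => le_inf (hU1 z hz).1 Subgroup.le_normalizer
  have hU4 : ∀ z ∈ UF, pz z ≤ P ⊓ nz Q ⊓ sfn e := by
    intro z hz
    have h1 := hU2 z hz (pz z) (hU3 z hz) le_rfl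
    refine le_inf (le_inf (inf_le_left.trans ((hUm z).1 hz).1) inf_le_right) ?_
    exact (hD3 _).2 h1.inv
  -- upper sums
  have hup : ∀ S : Subgroup G, Q < S →
      Small p M r (∑ S' ∈ Finset.univ.filter (fun S' => S ≤ S'), (y S' - zz S')) := by
    intro S hQS
    rw [Finset.sum_sub_distrib, DEC_up Finset.univ pt g S, DEC_up UF pz yy S]
    by_cases hSA : S ≤ P ⊓ nz Q ⊓ sfn e
    · have hSP : S ≤ P := hSA.trans (inf_le_left.trans inf_le_left)
      have hSn : S ≤ nz Q := hSA.trans (inf_le_left.trans inf_le_right)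
      have hSi : Inv S e := (hD3 S).1 (hSA.trans inf_le_right)
      have hSp : IsPGroup p S := hP.to_le hSP
      have h1 : ∑ t ∈ Finset.univ.filter (fun t => S ≤ pt t), g t = ∑ x, cvp (rsk (cz S) e) q x * F x := by
        have h2 := hD1 S hSA
        rw [← finsum_eq_sum_of_fintype (fun x => cvp (rsk (cz S) e) q x * F x), ← h2, ← finsum_mem_coe_finset]
        refine finsum_mem_congr ?_ fun _ _ => rfl
        ext t
        simp only [Finset.coe_filter, Finset.mem_univ, true_and, Set.mem_ofPred_eq, pt]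
      have hNf : {f | Nin p M Q e S f}.Finite :=
        ((hREP p M hS G (cz S)).1).subset fun f hf => hf.r.bb
      set NF : Finset (G → ℂ) := hNf.toFinset with hNF
      have hNm : ∀ f, f ∈ NF ↔ Nin p M Q e S f := fun f => by
        rw [hNF, Set.Finite.mem_toFinset]
        rfl
      have h2 : Small p M r (∑ x, cvp (rsk (cz S) e) q x * F x - ∑ f ∈ NF, ∑ x, f x * F x) := by
        rw [Finset.sum_comm, ← Finset.sum_sub_distrib]
        refine Small.sum hS _ fun x _ => ?_
        have h3 := hPW Q S e hQe hSp hQS.le hSn hSi x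
        have h4 : ∑ᶠ f ∈ {f | Nin p M Q e S f}, f x = ∑ f ∈ NF, f x := by
          rw [hNF, ← finsum_mem_coe_finset, Set.Finite.coe_toFinset]
        rw [h4] at h3
        have h5 := Small.mul_left hS (hF x) h3
        have h6 : cvp (rsk (cz S) e) q x * F x - ∑ f ∈ NF, f x * F x =
            F x * (cvp (rsk (cz S) e) q x - ∑ f ∈ NF, f x) := by
          rw [← Finset.sum_mul]
          ring
        rwa [h6]
      have h3 : Small p M r (∑ f ∈ NF, ∑ x, f x * F x - ∑ f ∈ NF, ∑ z ∈ (hfin S f).toFinset, yy z) := by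
        rw [← Finset.sum_sub_distrib]
        refine Small.sum hS _ fun f hf => ?_
        have h4 := ih S hQS f ((hNm f).1 hf).r hSP
        rw [finsum_eq_sum_of_fintype (fun x => f x * F x)] at h4
        have h5 : ∑ᶠ z ∈ Up p M P S f, YY P z.1 z.2 q F = ∑ z ∈ (hfin S f).toFinset, yy z := by
          rw [← finsum_mem_coe_finset, Set.Finite.coe_toFinset]
        rwa [h5] at h4
      have h4 : ∑ f ∈ NF, ∑ z ∈ (hfin S f).toFinset, yy z = ∑ z ∈ UF.filter (fun z => S ≤ pz z), yy z := by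
        rw [← Finset.sum_biUnion]
        · refine Finset.sum_congr ?_ fun _ _ => rfl
          ext z
          rw [Finset.mem_biUnion, Finset.mem_filter]
          constructor
          · rintro ⟨f, hf, hz⟩
            obtain ⟨hz1, hz2, hz3⟩ := (Set.Finite.mem_toFinset _).1 hz
            have h5 : Pin p M Q e z.1 z.2 := Relation.ReflTransGen.head ((hNm f).1 hf) hz3
            have h6 := (hUQT p M hS G z.1 z.2 hz2).2.2.2.1 S f hz3
            exact ⟨(hUm z).2 ⟨hz1, hz2, h5⟩, le_inf h6.1 hSn⟩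
          · rintro ⟨hz, hSz⟩
            have h5 := (hUm z).1 hz
            refine ⟨un p M z.1 z.2 S, (hNm _).2 (hU2 z hz S hQS.le hSz), ?_⟩
            rw [Set.Finite.mem_toFinset]
            exact ⟨h5.1, h5.2.1, ((hUQT p M hS G z.1 z.2 h5.2.1).2.1 S (hSz.trans inf_le_left)).2⟩
        · intro f _ f' _ hne
          rw [Function.onFun, Finset.disjoint_left]
          intro z hz hz'
          obtain ⟨hz1, hz2, hz3⟩ := (Set.Finite.mem_toFinset _).1 hz
          obtain ⟨-, -, hz3'⟩ := (Set.Finite.mem_toFinset _).1 hz'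
          have h6 := (hUQT p M hS G z.1 z.2 hz2).2.2.2.1 S f hz3
          have h7 := (hUQT p M hS G z.1 z.2 hz2).2.2.2.1 S f' hz3'
          exact hne (h6.2.trans h7.2.symm)
      rw [h1, ← h4]
      have h5 := Small.add hS h2 h3
      rwa [sub_add_sub_cancel] at h5
    · have h1 : Finset.univ.filter (fun t => S ≤ pt t) = ∅ := by
        refine Finset.filter_eq_empty_iff.2 fun t _ h => hSA ?_
        exact h.trans inf_le_left
      have h2 : UF.filter (fun z => S ≤ pz z) = ∅ := by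
        refine Finset.filter_eq_empty_iff.2 fun z hz h => hSA ?_
        exact h.trans (hU4 z hz)
      rw [h1, h2, Finset.sum_empty, Finset.sum_empty, sub_zero]
      exact Small.zero' hS r
  have hsm : ∀ S : Subgroup G, Q < S → Small p M r (y S - zz S) := by
    intro S hQS
    exact UPS hS (fun S => y S - zz S) r S (fun s hs => by
      have := hup s (lt_of_lt_of_le hQS hs)
      exact this) S le_rfl
  -- the total
  have hX : ∑ᶠ x, e x * F x = ∑ S ∈ Finset.univ.filter (fun S => Q ≤ S), y S := by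
    rw [show ∑ S ∈ Finset.univ.filter (fun S => Q ≤ S), y S = ∑ t ∈ Finset.univ.filter (fun t => Q ≤ pt t), g t from
      DEC_up Finset.univ pt g Q]
    have h2 := hD1 Q hQA
    have hz := (hREP p M hS G (cz Q)).2.2.2.1 e hQe.bb
    rw [DEC_rsk hz.2.1] at h2
    obtain ⟨q', hq'⟩ := hq0
    have h3 : cvp e q = e := by
      rw [hq']
      exact DEC_idem hCVF hz.2.2.2 q'
    rw [h3] at h2
    rw [← h2, ← finsum_mem_coe_finset]
    refine finsum_mem_congr ?_ fun _ _ => rfl
    ext t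
    simp only [Finset.coe_filter, Finset.mem_univ, true_and, Set.mem_ofPred_eq, pt]
  have hU : ∑ᶠ z ∈ Up p M P Q e, YY P z.1 z.2 q F = ∑ S ∈ Finset.univ.filter (fun S => Q ≤ S), zz S := by
    rw [show ∑ S ∈ Finset.univ.filter (fun S => Q ≤ S), zz S = ∑ z ∈ UF.filter (fun z => Q ≤ pz z), yy z from
      DEC_up UF pz yy Q]
    have h1 : UF.filter (fun z => Q ≤ pz z) = UF := Finset.filter_true_of_mem hU3
    rw [h1, hUF, ← finsum_mem_coe_finset, Set.Finite.coe_toFinset]
  rw [hX, hU, ← Finset.sum_sub_distrib]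
  refine Small.sum hS _ fun S hS' => ?_
  have hQS : Q ≤ S := (Finset.mem_filter.1 hS').2
  rcases eq_or_lt_of_le hQS with h | h
  · subst h
    have h1 : y Q = YY P Q e q F := by
      unfold YY
      show ∑ t ∈ Finset.univ.filter (fun t => pt t = Q), g t = _
      rw [← finsum_mem_coe_finset]
      refine finsum_mem_congr ?_ fun _ _ => rfl
      ext t
      simp only [Finset.coe_filter, Finset.mem_univ, true_and, Set.mem_ofPred_eq, pt]
    have h2 : UF.filter (fun z => pz z = Q) = {(Q, e)} := by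
      ext z
      rw [Finset.mem_filter, Finset.mem_singleton]
      constructor
      · rintro ⟨hz, h3⟩
        have h4 := (hUm z).1 hz
        have h5 : z.1 = Q := DEC_nc hS.pr h4.2.1.pg (hU1 z hz).1 h3.le
        have h6 := (hU1 z hz).2
        have h7 := (hUQT p M hS G z.1 z.2 h4.2.1).1
        rw [h5] at h7
        rw [h5] at h6
        have h8 : z.2 = e := h7.symm.trans h6.symm
        exact Prod.ext h5 h8
      · rintro rfl
        refine ⟨(hUm _).2 ⟨hQP, hQe, Relation.ReflTransGen.refl⟩, ?_⟩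
        exact inf_eq_left.2 Subgroup.le_normalizer
    have h3 : zz Q = YY P Q e q F := by
      show ∑ z ∈ UF.filter (fun z => pz z = Q), yy z = _
      rw [h2, Finset.sum_singleton]
    rw [h1, h3, sub_self]
    exact Small.zero' hS r
  · exact hsm S h

end Pool.Agent.GB
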