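import Pool.Agent.helper12.FI.All
import Pool.Agent.helper22.FI.AllA
import Pool.Agent.helper59.FI.AllB
import Pool.Agent.helper58.FI.AllC
import Pool.Agent.helper83.FI.AllR
import Pool.Agent.helper59.FI4.AllI
import Pool.Agent.helper87.BR.REP
import Pool.Agent.helper21.BR.SPC
import Pool.Agent.helper64.BR.EXA
import Pool.Agent.helper75.GB.CJB
import Pool.Agent.helper69.GB.DIC
import Pool.Agent.helper40.GB.CNZ
import Pool.Agent.helper59.GB.LIZ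
import Pool.Agent.helper20.GB.TSZ
import Pool.Agent.helper21.GB.TBZ
import Pool.Agent.helper61.GB.NIX
import Pool.Agent.helper77.GB.NIS
import Pool.Agent.helper17.GB.NSB
import Pool.Agent.helper30.GB.NIT
import Pool.Agent.helper25.GB.UQT
import Pool.Agent.helper71.GB.PWS
import Pool.Agent.helper90.GB.DEU
import Pool.Agent.helper68.GB.DEC
import Pool.Agent.helper18.GB.EXZ
import Pool.Agent.helper79.GB.UNZ
import Pool.Agent.helper59.GB.DFZ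
import Pool.Agent.helper43.GB.CJR
import Pool.Agent.helper51.GB.MXZ
import Pool.Agent.helper83.GB.FUZ
import Pool.Agent.helper39.GB.CLZ
import Pool.Agent.helper89.GB.LAZ
import Pool.Agent.helper70.GB.ORZ
import Pool.Agent.helper16.GB.LOZ
import Pool.Agent.helper63.GB.LKZ
import Pool.Agent.helper68.GB.BPZ
import Pool.Agent.helper83.GB.ZH0
import Pool.Agent.helper8.GB.ZHE

/-!
# Project GB (MP_baa4d7_al): assembly. `gXXX`: the rows of `helper68/GB/Spec` without hypotheses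
-/

set_option autoImplicit false

namespace Pool.Agent.GB.AllG

open Pool.Agent.helper58.DC Pool.Agent.DI Pool.Agent.GR Pool.Agent.OB Pool.Agent.DR Pool.Agent.FI Pool.Agent.FI3 Pool.Agent.FI4 Pool.Agent.LE Pool.Agent.BR Pool.Agent.GB

theorem gREP : REP_stmt := Pool.Agent.BR.REP Pool.Agent.GR.All.dB2 Pool.Agent.FI.AllA.dBLE
theorem gSPC : SPC_stmt := Pool.Agent.BR.SPC Pool.Agent.FI.AllQ.qQEV
theorem gEXA : Pool.Agent.BR.EXA_stmt := Pool.Agent.BR.EXA Pool.Agent.FI.AllQ.qQRS Pool.Agent.FI.AllQ.qQCE Pool.Agent.GR.All.dB2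
theorem gCJB : CJB_stmt := Pool.Agent.GB.CJB Pool.Agent.FI.AllC.cFEQ gREP
theorem gDIC : DIC_stmt := Pool.Agent.GB.DIC Pool.Agent.GR.All.dIDM Pool.Agent.GR.All.dEIN Pool.Agent.GR.All.dNIL Pool.Agent.GR.All.dCVF Pool.Agent.GR.All.dCCI Pool.Agent.GR.All.dEXP gREP
theorem gNIX : NIX_stmt := Pool.Agent.GB.NIX gDIC gCJB Pool.Agent.FI.AllR.rBRQ Pool.Agent.FI.AllA.dORP Pool.Agent.GR.All.dCVF gREP
theorem gNIS : NIS_stmt := Pool.Agent.GB.NIS gDIC gREP Pool.Agent.FI.AllR.rBRQ Pool.Agent.GR.All.dCVF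
theorem gNSB : NSB_stmt := Pool.Agent.GB.NSB gDIC Pool.Agent.FI.AllR.rBRQ Pool.Agent.FI.AllR.rBRK Pool.Agent.FI.AllA.dPWN Pool.Agent.GR.All.dCCI Pool.Agent.GR.All.dCVF gREP Pool.Agent.GR.All.dIDM
theorem gNIT : NIT_stmt := Pool.Agent.GB.NIT gNIX gCJB Pool.Agent.FI.AllR.rBRQ Pool.Agent.GR.All.dCVF gREP
theorem gUQT : UQT_stmt := Pool.Agent.GB.UQT gNIX gNIT gREP
theorem gPWS : PWS_stmt := Pool.Agent.GB.PWS gNIS gDIC gREP Pool.Agent.GR.All.dCVF Pool.Agent.GR.All.dPRD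
theorem gDEU : DEU_stmt := Pool.Agent.GB.DEU gCJB gREP
theorem gDEC : DEC_stmt := Pool.Agent.GB.DEC gDEU gPWS gUQT gREP Pool.Agent.GR.All.dCVF
theorem gEXZ : EXZ_stmt := Pool.Agent.GB.EXZ Pool.Agent.FI.AllA.dSYL Pool.Agent.FI.AllA.dNCJ
theorem gUNZ : UNZ_stmt := Pool.Agent.GB.UNZ gEXZ Pool.Agent.FI.AllA.dBQA Pool.Agent.FI.AllB.dIVS Pool.Agent.GR.All.dIDM Pool.Agent.GR.All.dEIN Pool.Agent.GR.All.dCVF Pool.Agent.GR.All.dCCI Pool.Agent.FI.AllA.dSYL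
theorem gDFZ : DFZ_stmt := Pool.Agent.GB.DFZ Pool.Agent.FI.AllA.dSBI Pool.Agent.FI.AllA.dDCM Pool.Agent.FI.AllA.dCLS Pool.Agent.FI.AllA.dSYL
theorem gCJR : CJR_stmt := Pool.Agent.GB.CJR
theorem gMXZ : MXZ_stmt := Pool.Agent.GB.MXZ gEXZ gNIS gCJB Pool.Agent.FI.AllA.dORP Pool.Agent.FI.AllA.dDCM Pool.Agent.FI.AllA.dTPR Pool.Agent.FI.AllA.dCNTL Pool.Agent.FI.AllB.dIVS gREP Pool.Agent.GR.All.dIDM Pool.Agent.GR.All.dEIN Pool.Agent.GR.All.dCCI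
theorem gCNZ : CNZ_stmt := Pool.Agent.GB.CNZ gMXZ gUNZ gNSB gCJB Pool.Agent.FI.AllA.dTPR gREP
theorem gFUZ : FUZ_stmt := Pool.Agent.GB.FUZ Pool.Agent.FI.AllA.dEXB Pool.Agent.FI.AllA.dCNTL gDFZ gUNZ
theorem gCLZ : CLZ_stmt := Pool.Agent.GB.CLZ gUQT gNSB gDFZ gCJR Pool.Agent.FI.AllA.dCNTL gREP
theorem gLAZ : LAZ_stmt := Pool.Agent.GB.LAZ gCNZ gUQT gCJB gNSB gFUZ gREP
theorem gLIZ : LIZ_stmt := Pool.Agent.GB.LIZ gLAZ gSPC gEXA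
theorem gTBZ : TBZ_stmt := Pool.Agent.GB.TBZ gREP Pool.Agent.FI.AllA.dEXB Pool.Agent.FI.AllR.rEVF
theorem gTSZ : TSZ_stmt := Pool.Agent.GB.TSZ gTBZ gDEC gUQT gLIZ gREP
theorem gORZ : ORZ_stmt := Pool.Agent.GB.ORZ Pool.Agent.FI.AllC.cFEQ gLIZ gCJB gUQT gREP
theorem gLOZ : LOZ_stmt := Pool.Agent.GB.LOZ gTSZ gORZ gTBZ gLIZ gUQT gREP
theorem gLKZ : LKZ_stmt := Pool.Agent.GB.LKZ Pool.Agent.GR.All.dB2
theorem gBPZ : BPZ_stmt := Pool.Agent.GB.BPZ gLOZ gLKZ Pool.Agent.GR.All.dB2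
theorem gZH0 : ZH0_stmt := Pool.Agent.GB.ZH0 Pool.Agent.FI.AllA.dDGL Pool.Agent.FI.AllA.dCNTL Pool.Agent.FI.AllA.dCJG Pool.Agent.FI.AllA.dTPR gCNZ gUQT gNSB gCJB gREP
theorem gZHE : ZHE_stmt := Pool.Agent.GB.ZHE gZH0 Pool.Agent.FI4I.AllI.iTR1 Pool.Agent.FI4I.AllI.iTR2 Pool.Agent.FI4I.AllI.iTR3 Pool.Agent.FI.AllA.dCLS Pool.Agent.FI.AllA.dTPR

end Pool.Agent.GB.AllG
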